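import Pool.Agent.H.MP_15e1ec_an.Ops

set_option autoImplicit false

open scoped ENNReal NNReal Topology
open Finset Filter

namespace Pool.Agent.H.MP_15e1ec_an

noncomputable section

/-- index set of the unit vector basis -/
abbrev Idx : Type := Σ k : ℕ, Fin (2 ^ k)

/-- unit vectors -/
def bas (i : Idx) : X := sg i.1 (EuclideanSpace.single i.2 1)

/-- coordinate functionals -/
def co (i : Idx) : X →L[ℝ] ℝ := (EuclideanSpace.proj i.2).comp (cmpL i.1)

lemma co_apply (i : Idx) (x : X) : co i x = cmp i.1 x i.2 := rfl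

lemma norm_bas (i : Idx) : ‖bas i‖ = 1 := by
  unfold bas
  rw [norm_sg, EuclideanSpace.norm_single]; simp

lemma cmp_bas (i : Idx) (k : ℕ) (s : Fin (2 ^ k)) :
    cmp k (bas i) s = if (⟨k, s⟩ : Idx) = i then 1 else 0 := by
  obtain ⟨j, t⟩ := i
  unfold bas
  by_cases hkj : k = j
  · subst hkj
    simp only [cmp_sg_self]
    rw [EuclideanSpace.single_apply]
    by_cases hst : s = t
    · subst hst; simp
    · simp [hst]
  · rw [cmp_sg_ne hkj]
    have : (⟨k, s⟩ : Idx) ≠ ⟨j, t⟩ := by
      intro h; exact hkj (congrArg Sigma.fst h)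
    simp [this]

lemma co_bas (i j : Idx) : co i (bas j) = if i = j then 1 else 0 := by
  rw [co_apply, cmp_bas]

lemma cmp_sum {ι : Type*} (A : Finset ι) (f : ι → X) (k : ℕ) :
    cmp k (∑ i ∈ A, f i) = ∑ i ∈ A, cmp k (f i) := by
  rw [← cmpL_apply, map_sum]; rfl

lemma co_partial (A : Finset Idx) (x : X) (i : Idx) :
    co i (∑ j ∈ A, co j x • bas j) = if i ∈ A then co i x else 0 := by
  rw [map_sum]
  simp only [map_smul, co_bas, smul_eq_mul, mul_ite, mul_one, mul_zero]
  rw [Finset.sum_ite_eq]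

lemma norm_cmp_le_of_co {x y : X} {k : ℕ} (h : ∀ s : Fin (2 ^ k), |cmp k y s| ≤ |cmp k x s|) :
    ‖cmp k y‖ ≤ ‖cmp k x‖ := by
  rw [EuclideanSpace.norm_eq, EuclideanSpace.norm_eq]
  apply Real.sqrt_le_sqrt
  apply Finset.sum_le_sum
  intro s _
  simp only [Real.norm_eq_abs]
  exact pow_le_pow_left₀ (abs_nonneg _) (h s) 2

lemma apply_eq_zero {x : X} {v : ℕ} (h : ∀ k, grp k = v → cmp k x = 0) : x v = 0 := by
  rw [← asm_cmp x v]
  ext1 k
  obtain ⟨k, hk⟩ := k
  exact h k hk

lemma norm_apply_le {x y : X} {v : ℕ} (h : ∀ k, grp k = v → ‖cmp k y‖ ≤ ‖cmp k x‖) :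
    ‖y v‖ ≤ ‖x v‖ := by
  rw [← asm_cmp x v, ← asm_cmp y v]
  exact norm_asm_mono h

/-- the unit vectors form an unconditional basis -/
lemma hasSum_co (x : X) : HasSum (fun i => co i x • bas i) x := by
  have key : ∀ V : ℕ, ∀ A : Finset Idx, (Finset.range (st V)).sigma (fun _ => Finset.univ) ⊆ A →
      ‖x - ∑ i ∈ A, co i x • bas i‖ ^ 2 ≤ ∑' v, ‖x (v + V)‖ ^ 2 := by
    intro V A hA
    set z := x - ∑ i ∈ A, co i x • bas i with hz
    have hco : ∀ i : Idx, co i z = if i ∈ A then 0 else co i x := by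
      intro i
      rw [hz, map_sub, co_partial]
      split_ifs <;> simp
    have h1 : ∀ k, ‖cmp k z‖ ≤ ‖cmp k x‖ := by
      intro k
      apply norm_cmp_le_of_co
      intro s
      have := hco ⟨k, s⟩
      rw [co_apply, co_apply] at this
      simp only at this
      rw [this]
      split_ifs
      · simp
      · exact le_rfl
    have h2 : ∀ v, v < V → z v = 0 := by
      intro v hv
      apply apply_eq_zero
      intro k hk
      have hkV : k < st V := by
        have h3 := ((grp_eq_iff k v).1 hk).2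
        have h4 : st (v + 1) ≤ st V := by
          unfold st
          have : 2 ^ 2 ^ (v + 1) ≤ 2 ^ 2 ^ V :=
            Nat.pow_le_pow_right (by norm_num) (Nat.pow_le_pow_right (by norm_num) hv)
          omega
        omega
      ext s
      have := hco ⟨k, s⟩
      rw [co_apply] at this
      simp only at this
      rw [this, if_pos]
      · simp
      · apply hA
        simp [hkV]
    rw [norm_sq z, ← (summable_sq z).sum_add_tsum_nat_add V]
    have h3 : ∑ i ∈ Finset.range V, ‖z i‖ ^ 2 = 0 := by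
      apply Finset.sum_eq_zero
      intro v hv
      rw [h2 v (Finset.mem_range.1 hv)]; simp
    rw [h3, zero_add]
    apply Summable.tsum_le_tsum
    · intro v
      exact pow_le_pow_left₀ (norm_nonneg _) (norm_apply_le fun k _ => h1 k) 2
    · exact (summable_nat_add_iff V).2 (summable_sq z)
    · exact (summable_nat_add_iff V).2 (summable_sq x)
  have ht := tendsto_sum_nat_add (fun v => ‖x v‖ ^ 2)
  rw [HasSum, SummationFilter.unconditional_filter, Metric.tendsto_atTop]
  intro ε hε
  rw [Metric.tendsto_atTop] at ht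
  obtain ⟨V, hV⟩ := ht (ε ^ 2) (by positivity)
  refine ⟨(Finset.range (st V)).sigma (fun _ => Finset.univ), fun A hA => ?_⟩
  have h1 := key V A hA
  have h2 := hV V le_rfl
  rw [Real.dist_eq, sub_zero, abs_lt] at h2
  rw [dist_comm, dist_eq_norm]
  exact lt_of_pow_lt_pow_left₀ 2 hε.le (lt_of_le_of_lt h1 h2.2)

lemma clm_ext {Y : Type*} [NormedAddCommGroup Y] [NormedSpace ℝ Y] {A B : X →L[ℝ] Y}
    (h : ∀ k (u : Bk k), A (sg k u) = B (sg k u)) : A = B := by
  ext x
  have hA := (hasSum_co x).mapL A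
  have hB := (hasSum_co x).mapL B
  have : (fun i => A (co i x • bas i)) = fun i => B (co i x • bas i) := by
    funext i
    rw [map_smul, map_smul]
    unfold bas
    rw [h]
  rw [this] at hA
  exact hA.unique hB

end

end Pool.Agent.H.MP_15e1ec_an
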