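import Pool.Agent.H.MP_15e1ec_an.Bas

set_option autoImplicit false

open scoped ENNReal NNReal Topology
open Finset Filter

namespace Pool.Agent.H.MP_15e1ec_an

noncomputable section

lemma apply_rpow (x : X) (v : ℕ) :
    ‖x v‖ ^ rho v = ∑ k ∈ Finset.Ico (st v) (st (v + 1)), ‖cmp k x‖ ^ rho v := by
  rw [norm_apply_eq, ← Real.rpow_mul (Finset.sum_nonneg fun k _ => Real.rpow_nonneg (norm_nonneg _) _),
    one_div_mul_cancel (rho_pos v).ne', Real.rpow_one]

lemma sq_eq_of_rpow {a r : ℝ} (ha : 0 ≤ a) (hr : 0 < r) : (a ^ r) ^ (1 / (r / 2)) = a ^ 2 := by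
  rw [← Real.rpow_mul ha]
  have : r * (1 / (r / 2)) = 2 := by field_simp
  rw [this, Real.rpow_two]

lemma sq_rpow_half {a r : ℝ} (ha : 0 ≤ a) : (a ^ 2) ^ (r / 2) = a ^ r := by
  rw [← Real.rpow_two, ← Real.rpow_mul ha]
  congr 1; ring

/-- two-point cotype inequality in a group -/
lemma group_cot (x y : X) (v : ℕ) :
    (‖x v‖ ^ rho v + ‖y v‖ ^ rho v) ^ (1 / (rho v / 2)) ≤
      (‖(x + y) v‖ ^ 2 + ‖(x - y) v‖ ^ 2) / 2 := by
  have hr := rho_pos v
  have hp : 1 ≤ rho v / 2 := by linarith [two_lt_rho v]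
  set p := rho v / 2 with hpdef
  have hp0 : 0 < p := by linarith
  set I := Finset.Ico (st v) (st (v + 1)) with hI
  have e : ∀ z : X, ‖z v‖ ^ 2 = (∑ k ∈ I, (‖cmp k z‖ ^ 2) ^ p) ^ (1 / p) := by
    intro z
    rw [← sq_eq_of_rpow (norm_nonneg (z v)) hr, apply_rpow]
    congr 1
    apply Finset.sum_congr rfl
    intro k _
    rw [hpdef, sq_rpow_half (norm_nonneg _)]
  have e' : ∀ z : X, ‖z v‖ ^ rho v = ∑ k ∈ I, (‖cmp k z‖ ^ 2) ^ p := by
    intro z
    rw [apply_rpow]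
    apply Finset.sum_congr rfl
    intro k _
    rw [hpdef, sq_rpow_half (norm_nonneg _)]
  rw [e (x + y), e (x - y), e' x, e' y]
  have mink := Real.Lp_add_le_of_nonneg I (f := fun k => ‖cmp k (x + y)‖ ^ 2)
    (g := fun k => ‖cmp k (x - y)‖ ^ 2) hp (fun k _ => by positivity) (fun k _ => by positivity)
  have par : ∀ k, ‖cmp k (x + y)‖ ^ 2 + ‖cmp k (x - y)‖ ^ 2 = 2 * (‖cmp k x‖ ^ 2 + ‖cmp k y‖ ^ 2) := by
    intro k
    have := parallelogram_law_with_norm ℝ (cmp k x) (cmp k y)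
    rw [cmp_add, cmp_sub]
    nlinarith
  have h1 : (∑ k ∈ I, (‖cmp k (x + y)‖ ^ 2 + ‖cmp k (x - y)‖ ^ 2) ^ p) ^ (1 / p)
      = 2 * (∑ k ∈ I, (‖cmp k x‖ ^ 2 + ‖cmp k y‖ ^ 2) ^ p) ^ (1 / p) := by
    have : ∑ k ∈ I, (‖cmp k (x + y)‖ ^ 2 + ‖cmp k (x - y)‖ ^ 2) ^ p
        = 2 ^ p * ∑ k ∈ I, (‖cmp k x‖ ^ 2 + ‖cmp k y‖ ^ 2) ^ p := by
      rw [Finset.mul_sum]
      apply Finset.sum_congr rfl
      intro k _
      rw [par, Real.mul_rpow (by norm_num) (by positivity)]
    rw [this, Real.mul_rpow (by positivity) (Finset.sum_nonneg fun k _ => by positivity),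
      ← Real.rpow_mul (by norm_num), mul_one_div_cancel hp0.ne', Real.rpow_one]
  have h2 : ∑ k ∈ I, (‖cmp k x‖ ^ 2) ^ p + ∑ k ∈ I, (‖cmp k y‖ ^ 2) ^ p
      ≤ ∑ k ∈ I, (‖cmp k x‖ ^ 2 + ‖cmp k y‖ ^ 2) ^ p := by
    rw [← Finset.sum_add_distrib]
    apply Finset.sum_le_sum
    intro k _
    exact Real.add_rpow_le_rpow_add (by positivity) (by positivity) hp
  have h3 := Real.rpow_le_rpow (add_nonneg (Finset.sum_nonneg fun k _ => by positivity)
    (Finset.sum_nonneg fun k _ => by positivity)) h2 (by positivity : 0 ≤ 1 / p)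
  linarith [mink, h1, h3]

/-- monotonicity in the exponent -/
lemma exp_mono {a b r s : ℝ} (ha : 0 ≤ a) (hb : 0 ≤ b) (hr : 0 < r) (hrs : r ≤ s) :
    (a ^ s + b ^ s) ^ (1 / (s / 2)) ≤ (a ^ r + b ^ r) ^ (1 / (r / 2)) := by
  have hs : 0 < s := by linarith
  have h := Real.rpow_add_rpow_le ha hb hr hrs
  have h2 := pow_le_pow_left₀ (by positivity) h 2
  rw [← Real.rpow_two, ← Real.rpow_two, ← Real.rpow_mul (by positivity),
    ← Real.rpow_mul (by positivity)] at h2
  have e1 : 1 / s * 2 = 1 / (s / 2) := by field_simp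
  have e2 : 1 / r * 2 = 1 / (r / 2) := by field_simp
  rwa [e1, e2] at h2

lemma mink_two {p : ℝ} (hp : 1 ≤ p) {a b c d : ℝ} (ha : 0 ≤ a) (hb : 0 ≤ b) (hc : 0 ≤ c) (hd : 0 ≤ d) :
    ((a + c) ^ p + (b + d) ^ p) ^ (1 / p) ≤ (a ^ p + b ^ p) ^ (1 / p) + (c ^ p + d ^ p) ^ (1 / p) := by
  have := Real.Lp_add_le_of_nonneg (Finset.univ : Finset (Fin 2)) (f := ![a, b]) (g := ![c, d]) hp
    (fun i _ => by fin_cases i <;> simp [ha, hb]) (fun i _ => by fin_cases i <;> simp [hc, hd])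
  simpa [Fin.sum_univ_two] using this

lemma mink_fin {p : ℝ} (hp : 1 ≤ p) (α β : ℕ → ℝ) (hα : ∀ v, 0 ≤ α v) (hβ : ∀ v, 0 ≤ β v) (n : ℕ) :
    ((∑ v ∈ Finset.range n, α v) ^ p + (∑ v ∈ Finset.range n, β v) ^ p) ^ (1 / p) ≤
      ∑ v ∈ Finset.range n, (α v ^ p + β v ^ p) ^ (1 / p) := by
  have hp0 : 0 < p := by linarith
  induction n with
  | zero => simp [Real.zero_rpow hp0.ne', Real.zero_rpow (inv_ne_zero hp0.ne')]
  | succ n ih =>
    rw [Finset.sum_range_succ, Finset.sum_range_succ, Finset.sum_range_succ]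
    refine (mink_two hp (Finset.sum_nonneg fun v _ => hα v) (Finset.sum_nonneg fun v _ => hβ v)
      (hα n) (hβ n)).trans ?_
    linarith

/-- two-point cotype inequality for vectors supported on groups `> V` -/
lemma cot (V : ℕ) (x y : X) (hx : ∀ v, v ≤ V → x v = 0) (hy : ∀ v, v ≤ V → y v = 0) :
    (‖x‖ ^ rho (V + 1) + ‖y‖ ^ rho (V + 1)) ^ (1 / (rho (V + 1) / 2)) ≤
      (‖x + y‖ ^ 2 + ‖x - y‖ ^ 2) / 2 := by
  set s := rho (V + 1) with hs
  have hs2 : 2 < s := two_lt_rho _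
  set p := s / 2 with hpdef
  have hp : 1 ≤ p := by linarith
  have hp0 : 0 < p := by linarith
  have hterm : ∀ v, ((‖x v‖ ^ 2) ^ p + (‖y v‖ ^ 2) ^ p) ^ (1 / p) ≤
      (‖(x + y) v‖ ^ 2 + ‖(x - y) v‖ ^ 2) / 2 := by
    intro v
    rcases Nat.lt_or_ge V v with hv | hv
    · rw [hpdef, sq_rpow_half (norm_nonneg _), sq_rpow_half (norm_nonneg _)]
      exact (exp_mono (norm_nonneg _) (norm_nonneg _) (rho_pos v) (rho_anti hv)).trans
        (group_cot x y v)
    · have h1 : (x + y) v = 0 := by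
        show x v + y v = 0
        rw [hx v hv, hy v hv, add_zero]
      have h2 : (x - y) v = 0 := by
        show x v - y v = 0
        rw [hx v hv, hy v hv, sub_zero]
      rw [hx v hv, hy v hv, h1, h2]
      simp [Real.zero_rpow hp0.ne', Real.zero_rpow (inv_ne_zero hp0.ne')]
  have hC : ∀ n, ((∑ v ∈ Finset.range n, ‖x v‖ ^ 2) ^ p + (∑ v ∈ Finset.range n, ‖y v‖ ^ 2) ^ p)
      ^ (1 / p) ≤ (‖x + y‖ ^ 2 + ‖x - y‖ ^ 2) / 2 := by
    intro n
    refine (mink_fin hp _ _ (fun v => by positivity) (fun v => by positivity) n).trans ?_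
    refine (Finset.sum_le_sum fun v _ => hterm v).trans ?_
    rw [← Finset.sum_div, Finset.sum_add_distrib, norm_sq, norm_sq]
    have h1 := (summable_sq (x + y)).sum_le_tsum (Finset.range n) (fun v _ => by positivity)
    have h2 := (summable_sq (x - y)).sum_le_tsum (Finset.range n) (fun v _ => by positivity)
    linarith
  have hlim : Tendsto (fun n => ((∑ v ∈ Finset.range n, ‖x v‖ ^ 2) ^ p
      + (∑ v ∈ Finset.range n, ‖y v‖ ^ 2) ^ p) ^ (1 / p)) atTop
      (𝓝 (((‖x‖ ^ 2) ^ p + (‖y‖ ^ 2) ^ p) ^ (1 / p))) := by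
    have h1 := (summable_sq x).hasSum.tendsto_sum_nat
    have h2 := (summable_sq y).hasSum.tendsto_sum_nat
    rw [← norm_sq] at h1 h2
    have h1' := h1.rpow_const (p := p) (Or.inr hp0.le)
    have h2' := h2.rpow_const (p := p) (Or.inr hp0.le)
    exact (h1'.add h2').rpow_const (Or.inr (by positivity))
  have := le_of_tendsto' hlim hC
  rwa [hpdef, sq_rpow_half (norm_nonneg _), sq_rpow_half (norm_nonneg _)] at this

/-- choice of signs -/
lemma signs (V : ℕ) {ι : Type*} [DecidableEq ι] (y : ι → X) (hy : ∀ i v, v ≤ V → y i v = 0)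
    (B : Finset ι) : ∃ ε : ι → ℝ, (∀ i, |ε i| = 1) ∧
      ∑ i ∈ B, ‖y i‖ ^ rho (V + 1) ≤ ‖∑ i ∈ B, ε i • y i‖ ^ rho (V + 1) := by
  have hs := rho_pos (V + 1)
  induction B using Finset.induction_on with
  | empty => exact ⟨fun _ => 1, by simp, by simp [Real.zero_rpow hs.ne']⟩
  | insert a B ha ih =>
    obtain ⟨ε, hε, h⟩ := ih
    set z := ∑ i ∈ B, ε i • y i with hz
    have hz0 : ∀ v, v ≤ V → z v = 0 := by
      intro v hv
      apply apply_eq_zero
      intro k hk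
      rw [hz, cmp_sum]
      apply Finset.sum_eq_zero
      intro i _
      rw [cmp_smul]
      have : cmp k (y i) = 0 := by
        subst hk
        unfold cmp
        rw [hy i _ hv]; rfl
      rw [this, smul_zero]
    have hc := cot V z (y a) hz0 (hy a)
    have hmain : ∀ N : ℝ, 0 ≤ N →
        (‖z‖ ^ rho (V + 1) + ‖y a‖ ^ rho (V + 1)) ^ (1 / (rho (V + 1) / 2)) ≤ N ^ 2 →
        ‖z‖ ^ rho (V + 1) + ‖y a‖ ^ rho (V + 1) ≤ N ^ rho (V + 1) := by
      intro N hN hle
      have h3 := Real.rpow_le_rpow (by positivity) hle (by positivity : 0 ≤ rho (V + 1) / 2)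
      rw [← Real.rpow_mul (by positivity), one_div_mul_cancel (by positivity), Real.rpow_one,
        sq_rpow_half hN] at h3
      exact h3
    have hsum : ∀ e : ℝ, ∑ i ∈ insert a B, Function.update ε a e i • y i = e • y a + z := by
      intro e
      rw [Finset.sum_insert ha, Function.update_self, hz]
      congr 1
      apply Finset.sum_congr rfl
      intro i hi
      rw [Function.update_of_ne (by rintro rfl; exact ha hi)]
    have hup : ∀ e : ℝ, |e| = 1 → ∀ i, |Function.update ε a e i| = 1 := by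
      intro e he i
      by_cases hia : i = a
      · subst hia; rw [Function.update_self]; exact he
      · rw [Function.update_of_ne hia]; exact hε i
    rcases le_total (‖z + y a‖ ^ 2) (‖z - y a‖ ^ 2) with hle | hle
    · refine ⟨Function.update ε a (-1), hup _ (by simp), ?_⟩
      rw [hsum, Finset.sum_insert ha]
      have := hmain ‖z - y a‖ (norm_nonneg _) (by linarith)
      have e : (-1 : ℝ) • y a + z = z - y a := by rw [neg_one_smul]; abel
      rw [e]
      linarith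
    · refine ⟨Function.update ε a 1, hup _ (by simp), ?_⟩
      rw [hsum, Finset.sum_insert ha]
      have := hmain ‖z + y a‖ (norm_nonneg _) (by linarith)
      have e : (1 : ℝ) • y a + z = z + y a := by rw [one_smul]; abel
      rw [e]
      linarith

end

end Pool.Agent.H.MP_15e1ec_an
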