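import Mathlib

set_option autoImplicit false

open scoped InnerProductSpace
open Finset

namespace Pool.Agent.H.MP_15e1ec_an

noncomputable section

/-- a matrix with large diagonal entries is bounded below on a subspace of proportional dimension -/
lemma good_subspace {N : ℕ} (A : EuclideanSpace ℝ (Fin N) →L[ℝ] EuclideanSpace ℝ (Fin N))
    {M δ : ℝ} (hM : 0 < M) (hA : ‖A‖ ≤ M) (hδ : 0 < δ)
    (hd : ∀ s : Fin N, δ ≤ |A (EuclideanSpace.single s 1) s|) :
    ∃ F : Submodule ℝ (EuclideanSpace ℝ (Fin N)),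
      δ ^ 2 / (2 * M ^ 2) * N ≤ Module.finrank ℝ F ∧ ∀ x ∈ F, δ / 2 * ‖x‖ ≤ ‖A x‖ := by
  classical
  set E := EuclideanSpace ℝ (Fin N)
  let B : E →L[ℝ] E := A.adjoint ∘L A
  have hBxy : ∀ x y : E, ⟪B x, y⟫_ℝ = ⟪A x, A y⟫_ℝ := by
    intro x y
    show ⟪A.adjoint (A x), y⟫_ℝ = _
    rw [ContinuousLinearMap.adjoint_inner_left]
  have hsym : (B : E →ₗ[ℝ] E).IsSymmetric := by
    intro x y
    show ⟪B x, y⟫_ℝ = ⟪x, B y⟫_ℝ
    rw [hBxy, real_inner_comm (B y) x, hBxy, real_inner_comm]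
  have hn : Module.finrank ℝ E = N := by simp [E]
  set b := hsym.eigenvectorBasis hn with hb
  set lam := hsym.eigenvalues hn with hlam
  have hBb : ∀ i, B (b i) = lam i • b i := by
    intro i
    exact hsym.apply_eigenvectorBasis hn i
  have hlam_eq : ∀ i, lam i = ‖A (b i)‖ ^ 2 := by
    intro i
    have h1 := hBxy (b i) (b i)
    rw [hBb, inner_smul_left, real_inner_self_eq_norm_sq, real_inner_self_eq_norm_sq,
      b.norm_eq_one] at h1
    simpa using h1
  have hlam_le : ∀ i, lam i ≤ M ^ 2 := by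
    intro i
    rw [hlam_eq]
    apply pow_le_pow_left₀ (norm_nonneg _)
    calc ‖A (b i)‖ ≤ ‖A‖ * ‖b i‖ := A.le_opNorm _
      _ = ‖A‖ := by rw [b.norm_eq_one, mul_one]
      _ ≤ M := hA
  have htrace : ∑ i, lam i = ∑ s : Fin N, ‖A (EuclideanSpace.single s 1)‖ ^ 2 := by
    have h1 := LinearMap.trace_eq_sum_inner (B : E →ₗ[ℝ] E) b
    have h2 := LinearMap.trace_eq_sum_inner (B : E →ₗ[ℝ] E) (EuclideanSpace.basisFun (Fin N) ℝ)
    rw [h1] at h2
    have h3 : ∀ i, ⟪b i, (B : E →ₗ[ℝ] E) (b i)⟫_ℝ = lam i := by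
      intro i
      show ⟪b i, B (b i)⟫_ℝ = _
      rw [hBb, inner_smul_right, real_inner_self_eq_norm_sq, b.norm_eq_one]
      simp
    have h4 : ∀ s : Fin N, ⟪EuclideanSpace.basisFun (Fin N) ℝ s,
        (B : E →ₗ[ℝ] E) (EuclideanSpace.basisFun (Fin N) ℝ s)⟫_ℝ
        = ‖A (EuclideanSpace.single s 1)‖ ^ 2 := by
      intro s
      rw [EuclideanSpace.basisFun_apply]
      show ⟪_, B _⟫_ℝ = _
      rw [real_inner_comm, hBxy, real_inner_self_eq_norm_sq]
    rw [Finset.sum_congr rfl fun i _ => h3 i, Finset.sum_congr rfl fun s _ => h4 s] at h2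
    exact h2
  have hHS : (N : ℝ) * δ ^ 2 ≤ ∑ i, lam i := by
    rw [htrace]
    have : ∀ s : Fin N, δ ^ 2 ≤ ‖A (EuclideanSpace.single s 1)‖ ^ 2 := by
      intro s
      apply pow_le_pow_left₀ hδ.le
      refine (hd s).trans ?_
      rw [← Real.norm_eq_abs]
      exact PiLp.norm_apply_le _ s
    calc (N : ℝ) * δ ^ 2 = ∑ _s : Fin N, δ ^ 2 := by simp
      _ ≤ _ := Finset.sum_le_sum fun s _ => this s
  set G := Finset.univ.filter (fun i => δ ^ 2 / 2 ≤ lam i) with hG
  have hcount : δ ^ 2 / (2 * M ^ 2) * N ≤ G.card := by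
    have h1 : ∑ i, lam i ≤ (G.card : ℝ) * M ^ 2 + N * (δ ^ 2 / 2) := by
      rw [← Finset.sum_filter_add_sum_filter_not Finset.univ (fun i => δ ^ 2 / 2 ≤ lam i)]
      apply add_le_add
      · rw [← nsmul_eq_mul]
        exact Finset.sum_le_card_nsmul _ _ _ fun i _ => hlam_le i
      · calc ∑ i ∈ Finset.univ.filter (fun i => ¬ δ ^ 2 / 2 ≤ lam i), lam i
            ≤ (Finset.univ.filter (fun i => ¬ δ ^ 2 / 2 ≤ lam i)).card • (δ ^ 2 / 2) := by
              apply Finset.sum_le_card_nsmul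
              intro i hi
              exact (not_le.1 (Finset.mem_filter.1 hi).2).le
          _ = ((Finset.univ.filter (fun i => ¬ δ ^ 2 / 2 ≤ lam i)).card : ℝ) * (δ ^ 2 / 2) :=
              nsmul_eq_mul _ _
          _ ≤ N * (δ ^ 2 / 2) := by
              apply mul_le_mul_of_nonneg_right _ (by positivity)
              have : (Finset.univ.filter (fun i => ¬ δ ^ 2 / 2 ≤ lam i)).card ≤ N := by
                refine (Finset.card_le_univ _).trans ?_
                simp
              exact_mod_cast this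
    have h2 : (N : ℝ) * (δ ^ 2 / 2) ≤ G.card * M ^ 2 := by linarith
    have h3 : δ ^ 2 / (2 * M ^ 2) * N = (N * (δ ^ 2 / 2)) / M ^ 2 := by
      field_simp
    rw [h3, div_le_iff₀ (by positivity)]
    exact h2
  refine ⟨Submodule.span ℝ (Set.range fun i : G => b i.1), ?_, ?_⟩
  · rw [finrank_span_eq_card]
    · simpa using hcount
    · exact (b.orthonormal.comp _ Subtype.val_injective).linearIndependent
  · intro x hx
    have hzero : ∀ i, i ∉ G → ⟪x, b i⟫_ℝ = 0 := by
      intro i hi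
      induction hx using Submodule.span_induction with
      | mem y hy =>
        obtain ⟨j, rfl⟩ := hy
        apply b.inner_eq_zero
        rintro rfl
        exact hi j.2
      | zero => simp
      | add y z _ _ h1 h2 => rw [inner_add_left, h1, h2, add_zero]
      | smul c y _ h => rw [inner_smul_left, h, mul_zero]
    have h1 : ‖A x‖ ^ 2 = ∑ i, lam i * ⟪x, b i⟫_ℝ ^ 2 := by
      rw [← real_inner_self_eq_norm_sq, ← hBxy, real_inner_comm, ← b.sum_inner_mul_inner]
      apply Finset.sum_congr rfl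
      intro i _
      have h2 : ⟪b i, B x⟫_ℝ = lam i * ⟪x, b i⟫_ℝ := by
        have := hsym (b i) x
        have h3 : ⟪B (b i), x⟫_ℝ = ⟪b i, B x⟫_ℝ := this
        rw [← h3, hBb, inner_smul_left, real_inner_comm]; simp
      rw [h2]; ring
    have h2 : ‖x‖ ^ 2 = ∑ i, ⟪x, b i⟫_ℝ ^ 2 := by
      rw [← real_inner_self_eq_norm_sq, ← b.sum_inner_mul_inner]
      apply Finset.sum_congr rfl
      intro i _
      rw [real_inner_comm x (b i)]; ring
    have h3 : (δ / 2 * ‖x‖) ^ 2 ≤ ‖A x‖ ^ 2 := by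
      rw [mul_pow, h1, h2, Finset.mul_sum]
      apply Finset.sum_le_sum
      intro i _
      by_cases hi : i ∈ G
      · have h4 : δ ^ 2 / 2 ≤ lam i := (Finset.mem_filter.1 hi).2
        apply mul_le_mul_of_nonneg_right _ (sq_nonneg _)
        nlinarith [sq_nonneg δ]
      · rw [hzero i hi]; simp
    exact abs_le_of_sq_le_sq' h3 (norm_nonneg _) |>.2

/-- orthonormal families inside a subspace with linear constraints -/
lemma exists_family {E : Type*} [NormedAddCommGroup E] [InnerProductSpace ℝ E]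
    [FiniteDimensional ℝ E] (F : Submodule ℝ E) {V : Type*} [AddCommGroup V] [Module ℝ V]
    [FiniteDimensional ℝ V] (Φ : E →ₗ[ℝ] V) (n : ℕ)
    (h : n + Module.finrank ℝ V ≤ Module.finrank ℝ F) :
    ∃ w : Fin n → E, Orthonormal ℝ w ∧ (∀ s, w s ∈ F) ∧ ∀ s, Φ (w s) = 0 := by
  let K := LinearMap.ker (Φ.domRestrict F)
  have h1 := LinearMap.finrank_range_add_finrank_ker (Φ.domRestrict F)
  have h2 : Module.finrank ℝ (LinearMap.range (Φ.domRestrict F)) ≤ Module.finrank ℝ V :=
    Submodule.finrank_le _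
  have hK : n ≤ Module.finrank ℝ K := by
    show n ≤ Module.finrank ℝ (LinearMap.ker (Φ.domRestrict F))
    omega
  let b := stdOrthonormalBasis ℝ K
  refine ⟨fun s => ((b (Fin.castLE hK s) : K) : F), ?_, ?_, ?_⟩
  · have h3 := b.orthonormal.comp (Fin.castLE hK) (Fin.castLE_injective hK)
    have h4 := h3.comp_linearIsometry K.subtypeₗᵢ
    exact h4.comp_linearIsometry F.subtypeₗᵢ
  · intro s
    exact ((b (Fin.castLE hK s) : K) : F).2
  · intro s
    exact (b (Fin.castLE hK s)).2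

/-- left inverse of a map bounded below, vanishing on the orthogonal complement of the range -/
lemma left_inverse {E₁ E₂ : Type*} [NormedAddCommGroup E₁] [InnerProductSpace ℝ E₁]
    [FiniteDimensional ℝ E₁] [NormedAddCommGroup E₂] [InnerProductSpace ℝ E₂]
    [FiniteDimensional ℝ E₂] (B : E₁ →ₗ[ℝ] E₂) {c : ℝ} (hc : 0 < c) (h : ∀ y, c * ‖y‖ ≤ ‖B y‖) :
    ∃ S : E₂ →ₗ[ℝ] E₁, (∀ z, ‖S z‖ ≤ 1 / c * ‖z‖) ∧ (∀ y, S (B y) = y) ∧
      ∀ z, (∀ y, ⟪B y, z⟫_ℝ = 0) → S z = 0 := by
  have hinj : Function.Injective B := by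
    rw [← LinearMap.ker_eq_bot, LinearMap.ker_eq_bot']
    intro y hy
    have := h y
    rw [hy, norm_zero] at this
    have h2 : ‖y‖ ≤ 0 := by
      by_contra hcon
      push Not at hcon
      have := mul_pos hc hcon
      linarith
    exact norm_le_zero_iff.1 h2
  let e := LinearEquiv.ofInjective B hinj
  let P := (LinearMap.range B).orthogonalProjectionOnto
  refine ⟨e.symm.toLinearMap ∘ₗ P.toLinearMap, ?_, ?_, ?_⟩
  · intro z
    show ‖e.symm (P z)‖ ≤ _
    have h1 : B (e.symm (P z)) = P z := by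
      have := e.apply_symm_apply (P z)
      exact congrArg Subtype.val this
    have h2 := h (e.symm (P z))
    rw [h1] at h2
    have h3 : ‖((P z : LinearMap.range B) : E₂)‖ ≤ ‖z‖ :=
      Submodule.norm_orthogonalProjectionOnto_apply_le _ z
    rw [one_div, inv_mul_eq_div, le_div_iff₀ hc]
    linarith
  · intro y
    show e.symm (P (B y)) = y
    have : P (B y) = e y := by
      have h1 : B y = ((e y : LinearMap.range B) : E₂) := rfl
      rw [h1]
      exact Submodule.orthogonalProjectionOnto_mem_subspace_eq_self (e y)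
    rw [this, LinearEquiv.symm_apply_apply]
  · intro z hz
    show e.symm (P z) = 0
    have : P z = 0 := by
      apply Submodule.orthogonalProjectionOnto_apply_of_mem_orthogonal
      rw [Submodule.mem_orthogonal]
      rintro _ ⟨y, rfl⟩
      exact hz y
    rw [this, map_zero]

/-- the isometric embedding given by an orthonormal family -/
def ofFam {E : Type*} [NormedAddCommGroup E] [InnerProductSpace ℝ E] {n : ℕ} (w : Fin n → E) :
    EuclideanSpace ℝ (Fin n) →ₗ[ℝ] E where
  toFun y := ∑ s, y s • w s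
  map_add' x y := by simp [add_smul, Finset.sum_add_distrib]
  map_smul' c x := by simp [Finset.smul_sum, smul_smul]

lemma ofFam_apply {E : Type*} [NormedAddCommGroup E] [InnerProductSpace ℝ E] {n : ℕ}
    (w : Fin n → E) (y : EuclideanSpace ℝ (Fin n)) : ofFam w y = ∑ s, y s • w s := rfl

lemma norm_ofFam {E : Type*} [NormedAddCommGroup E] [InnerProductSpace ℝ E] {n : ℕ}
    {w : Fin n → E} (hw : Orthonormal ℝ w) (y : EuclideanSpace ℝ (Fin n)) : ‖ofFam w y‖ = ‖y‖ := by
  have h : ‖ofFam w y‖ ^ 2 = ‖y‖ ^ 2 := by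
    rw [← real_inner_self_eq_norm_sq, ofFam_apply, hw.inner_sum, EuclideanSpace.norm_sq_eq]
    simp [sq]
  exact (pow_left_inj₀ (norm_nonneg _) (norm_nonneg _) two_ne_zero).1 h

/-- partial inverse on a block -/
lemma partial_inverse {N n : ℕ} (hnN : n ≤ N)
    (A : EuclideanSpace ℝ (Fin N) →L[ℝ] EuclideanSpace ℝ (Fin N))
    (w : Fin n → EuclideanSpace ℝ (Fin N)) (hw : Orthonormal ℝ w) {c : ℝ} (hc : 0 < c)
    (h : ∀ x ∈ Submodule.span ℝ (Set.range w), c * ‖x‖ ≤ ‖A x‖) :
    ∃ V S : EuclideanSpace ℝ (Fin N) →L[ℝ] EuclideanSpace ℝ (Fin N),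
      ‖V‖ ≤ 1 ∧ ‖S‖ ≤ 1 / c ∧
      (∀ x s, S (A (V x)) s = if s.1 < n then x s else 0) ∧
      (∀ x, V x ∈ Submodule.span ℝ (Set.range w)) ∧
      ∀ z, (∀ s, ⟪A (w s), z⟫_ℝ = 0) → S z = 0 := by
  let π : EuclideanSpace ℝ (Fin N) →ₗ[ℝ] EuclideanSpace ℝ (Fin n) :=
    { toFun := fun x => WithLp.toLp 2 fun s => x (Fin.castLE hnN s)
      map_add' := by intro x y; ext s; simp
      map_smul' := by intro a x; ext s; simp }
  let ι : EuclideanSpace ℝ (Fin n) →ₗ[ℝ] EuclideanSpace ℝ (Fin N) :=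
    { toFun := fun x => WithLp.toLp 2 fun s => if hs : s.1 < n then x ⟨s.1, hs⟩ else 0
      map_add' := by
        intro x y; ext s
        by_cases hs : s.1 < n <;> simp [hs]
      map_smul' := by
        intro a x; ext s
        by_cases hs : s.1 < n <;> simp [hs] }
  have hcast : ∀ (f : Fin n → ℝ), ∑ s : Fin n, f s = ∑ s : Fin N, if hs : s.1 < n then f ⟨s.1, hs⟩ else 0 := by
    intro f
    rw [← Finset.sum_filter_add_sum_filter_not Finset.univ (fun s : Fin N => s.1 < n)
      (fun s => if hs : s.1 < n then f ⟨s.1, hs⟩ else 0)]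
    have h0 : ∑ s ∈ Finset.univ.filter (fun s : Fin N => ¬ s.1 < n),
        (if hs : s.1 < n then f ⟨s.1, hs⟩ else 0) = 0 := by
      apply Finset.sum_eq_zero
      intro s hs
      rw [dif_neg (Finset.mem_filter.1 hs).2]
    rw [h0, add_zero]
    apply Finset.sum_bij (fun (s : Fin n) _ => Fin.castLE hnN s)
    · intro s _
      simp
    · intro s _ t _ hst
      exact Fin.castLE_injective hnN hst
    · intro s hs
      exact ⟨⟨s.1, (Finset.mem_filter.1 hs).2⟩, Finset.mem_univ _, rfl⟩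
    · intro s _
      have : (Fin.castLE hnN s).1 < n := s.2
      rw [dif_pos this]
      rfl
  have hπ : ∀ x, ‖π x‖ ≤ ‖x‖ := by
    intro x
    rw [EuclideanSpace.norm_eq, EuclideanSpace.norm_eq]
    apply Real.sqrt_le_sqrt
    rw [hcast]
    apply Finset.sum_le_sum
    intro s _
    split_ifs with hs
    · exact le_rfl
    · positivity
  have hι : ∀ x, ‖ι x‖ = ‖x‖ := by
    intro x
    rw [EuclideanSpace.norm_eq, EuclideanSpace.norm_eq]
    congr 1
    rw [hcast]
    apply Finset.sum_congr rfl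
    intro s _
    show ‖(if hs : s.1 < n then x ⟨s.1, hs⟩ else 0)‖ ^ 2 = _
    split_ifs with hs
    · rfl
    · simp
  have hmem : ∀ y, ofFam w y ∈ Submodule.span ℝ (Set.range w) := by
    intro y
    rw [ofFam_apply]
    apply Submodule.sum_mem
    intro s _
    exact Submodule.smul_mem _ _ (Submodule.subset_span ⟨s, rfl⟩)
  obtain ⟨S₀, hS1, hS2, hS3⟩ := left_inverse ((A : _ →ₗ[ℝ] _) ∘ₗ ofFam w) hc (by
    intro y
    have := h _ (hmem y)
    rw [norm_ofFam hw] at this
    exact this)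
  refine ⟨LinearMap.toContinuousLinearMap (ofFam w ∘ₗ π),
    LinearMap.toContinuousLinearMap (ι ∘ₗ S₀), ?_, ?_, ?_, ?_, ?_⟩
  · apply ContinuousLinearMap.opNorm_le_bound _ zero_le_one
    intro x
    show ‖ofFam w (π x)‖ ≤ _
    rw [norm_ofFam hw, one_mul]
    exact hπ x
  · apply ContinuousLinearMap.opNorm_le_bound _ (by positivity)
    intro z
    show ‖ι (S₀ z)‖ ≤ _
    rw [hι]
    exact hS1 z
  · intro x s
    show ι (S₀ (A (ofFam w (π x)))) s = _
    have := hS2 (π x)
    have h1 : S₀ (A (ofFam w (π x))) = π x := this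
    rw [h1]
    show (if hs : s.1 < n then (π x) ⟨s.1, hs⟩ else 0) = _
    split_ifs with hs
    · rfl
    · rfl
  · intro x
    exact hmem _
  · intro z hz
    show ι (S₀ z) = 0
    rw [hS3 z, map_zero]
    intro y
    show ⟪A (ofFam w y), z⟫_ℝ = 0
    rw [ofFam_apply, map_sum, sum_inner]
    apply Finset.sum_eq_zero
    intro s _
    rw [map_smul, inner_smul_left, hz s, mul_zero]

/-- dependent recursion -/
lemma exists_dep_seq {α : ℕ → Type} (P : ∀ k, α k → Prop) (Q : ∀ k l, α k → α l → Prop)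
    (h : ∀ k (f : ∀ l, l < k → α l), (∀ l hl, P l (f l hl)) →
      ∃ a, P k a ∧ ∀ l hl, Q k l a (f l hl)) :
    ∃ f : ∀ k, α k, ∀ k, P k (f k) ∧ ∀ l, l < k → Q k l (f k) (f l) := by
  classical
  let F : ∀ k, {a : α k // P k a} := fun k =>
    WellFounded.fix (C := fun k => {a : α k // P k a}) (Nat.lt_wfRel.wf) (fun k ih =>
      ⟨Classical.choose (h k (fun l hl => (ih l hl).1) (fun l hl => (ih l hl).2)),
        (Classical.choose_spec (h k (fun l hl => (ih l hl).1) (fun l hl => (ih l hl).2))).1⟩) k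
  have hF : ∀ k, F k = ⟨Classical.choose (h k (fun l _ => (F l).1) (fun l _ => (F l).2)),
      (Classical.choose_spec (h k (fun l _ => (F l).1) (fun l _ => (F l).2))).1⟩ := by
    intro k
    show WellFounded.fix _ _ k = _
    rw [WellFounded.fix_eq]
  refine ⟨fun k => (F k).1, fun k => ⟨(F k).2, fun l hl => ?_⟩⟩
  have := (Classical.choose_spec (h k (fun l _ => (F l).1) (fun l _ => (F l).2))).2 l hl
  show Q k l (F k).1 (F l).1
  rw [hF k]
  exact this

end

end Pool.Agent.H.MP_15e1ec_an
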