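import Pool.Agent.H.MP_15e1ec_an.Shift
import Pool.Agent.H.MP_15e1ec_an.LinAlg

set_option autoImplicit false

open scoped InnerProductSpace
open Finset

namespace Pool.Agent.H.MP_15e1ec_an

noncomputable section

/-- block `(k, l)` of an operator -/
def TT (T : X →L[ℝ] X) (k l : ℕ) : Bk l →L[ℝ] Bk k := cmpL k ∘L T ∘L sg l

lemma TT_apply (T : X →L[ℝ] X) (k l : ℕ) (u : Bk l) : TT T k l u = cmp k (T (sg l u)) := rfl

lemma norm_TT (T : X →L[ℝ] X) (k l : ℕ) : ‖TT T k l‖ ≤ ‖T‖ := by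
  apply ContinuousLinearMap.opNorm_le_bound _ (norm_nonneg _)
  intro u
  rw [TT_apply]
  calc ‖cmp k (T (sg l u))‖ ≤ ‖T (sg l u)‖ := norm_cmp_le _ _
    _ ≤ ‖T‖ * ‖sg l u‖ := T.le_opNorm _
    _ = ‖T‖ * ‖u‖ := by rw [norm_sg]

lemma diag_sg (D) (c : ℝ) (hc) (h) (l : ℕ) (u : Bk l) : diag D c hc h (sg l u) = sg l (D l u) := by
  apply ext_cmp
  intro k
  rw [cmp_diag]
  by_cases hk : k = l
  · subst hk; rw [cmp_sg_self, cmp_sg_self]
  · rw [cmp_sg_ne hk, cmp_sg_ne hk, map_zero]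

lemma sum_div_le (b k : ℕ) : ∑ l ∈ Finset.range k, 2 ^ l / 2 ^ b ≤ 2 ^ k / 2 ^ b := by
  induction k with
  | zero => simp
  | succ k ih =>
    rw [Finset.sum_range_succ]
    have h1 : 2 * (2 ^ k / 2 ^ b) ≤ 2 * 2 ^ k / 2 ^ b := Nat.mul_div_le_mul_div_assoc _ _ _
    have h2 : 2 ^ (k + 1) = 2 * 2 ^ k := by ring
    rw [h2]
    omega

/-- the factorization property -/
theorem factors (T : X →L[ℝ] X) {δ : ℝ} (hδ : 0 < δ) (h : ∀ i : Idx, δ ≤ |co i (T (bas i))|) :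
    ∃ R S : X →L[ℝ] X, S ∘L T ∘L R = ContinuousLinearMap.id ℝ X := by
  classical
  set M := ‖T‖ + 1 with hMdef
  have hM : 0 < M := by positivity
  have hTM : ∀ k l, ‖TT T k l‖ ≤ M := fun k l => (norm_TT T k l).trans (by linarith)
  have hq : 0 < δ ^ 2 / (2 * M ^ 2) := by positivity
  obtain ⟨b, hb⟩ := pow_unbounded_of_one_lt (3 / (δ ^ 2 / (2 * M ^ 2))) (one_lt_two : (1 : ℝ) < 2)
  have hb' : 3 / (2 : ℝ) ^ b ≤ δ ^ 2 / (2 * M ^ 2) := by
    rw [div_le_iff₀ (by positivity)]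
    rw [div_lt_iff₀ hq] at hb
    linarith
  obtain ⟨w, hw⟩ := exists_dep_seq (α := fun k => Fin (2 ^ k / 2 ^ b) → Bk k)
    (fun k w => Orthonormal ℝ w ∧
      ∀ x ∈ Submodule.span ℝ (Set.range w), δ / 2 * ‖x‖ ≤ ‖TT T k k x‖)
    (fun k l w w' => ∀ s t, ⟪TT T k k (w s), TT T k l (w' t)⟫_ℝ = 0 ∧
      ⟪TT T l l (w' t), TT T l k (w s)⟫_ℝ = 0) (by
    intro k f _
    obtain ⟨F, hF1, hF2⟩ := good_subspace (TT T k k) hM (hTM k k) hδ (fun s => h ⟨k, s⟩)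
    let Φ : Bk k →ₗ[ℝ] ((Σ l : Fin k, Fin (2 ^ l.1 / 2 ^ b)) → ℝ × ℝ) :=
      LinearMap.pi fun p => LinearMap.prod
        ((innerSL ℝ (TT T k p.1.1 (f p.1.1 p.1.2 p.2))).toLinearMap ∘ₗ (TT T k k).toLinearMap)
        ((innerSL ℝ (TT T p.1.1 p.1.1 (f p.1.1 p.1.2 p.2))).toLinearMap ∘ₗ
          (TT T p.1.1 k).toLinearMap)
    have hfr : Module.finrank ℝ ((Σ l : Fin k, Fin (2 ^ l.1 / 2 ^ b)) → ℝ × ℝ)
        ≤ 2 * (2 ^ k / 2 ^ b) := by
      rw [Module.finrank_pi_fintype]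
      simp only [Module.finrank_prod, Module.finrank_self, Finset.sum_const, Finset.card_univ,
        Fintype.card_sigma, Fintype.card_fin, smul_eq_mul]
      have h1 := sum_div_le b k
      rw [← Fin.sum_univ_eq_sum_range (fun l => 2 ^ l / 2 ^ b) k] at h1
      omega
    have hdim : 2 ^ k / 2 ^ b + Module.finrank ℝ ((Σ l : Fin k, Fin (2 ^ l.1 / 2 ^ b)) → ℝ × ℝ)
        ≤ Module.finrank ℝ F := by
      have h3 : (3 * (2 ^ k / 2 ^ b : ℕ) : ℝ) ≤ Module.finrank ℝ F := by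
        refine le_trans ?_ hF1
        have h4 : ((2 ^ k / 2 ^ b : ℕ) : ℝ) ≤ ((2 ^ k : ℕ) : ℝ) / ((2 ^ b : ℕ) : ℝ) :=
          Nat.cast_div_le
        have h5 : (((2 ^ b : ℕ)) : ℝ) = (2 : ℝ) ^ b := by push_cast; rfl
        calc (3 * (2 ^ k / 2 ^ b : ℕ) : ℝ) ≤ 3 * (((2 ^ k : ℕ) : ℝ) / ((2 ^ b : ℕ) : ℝ)) := by
              linarith
          _ = 3 / (2 : ℝ) ^ b * ((2 ^ k : ℕ) : ℝ) := by rw [h5]; ring
          _ ≤ _ := mul_le_mul_of_nonneg_right hb' (by positivity)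
      have h6 : 3 * (2 ^ k / 2 ^ b) ≤ Module.finrank ℝ F := by exact_mod_cast h3
      omega
    obtain ⟨w, hw1, hw2, hw3⟩ := exists_family F Φ (2 ^ k / 2 ^ b) hdim
    refine ⟨w, ⟨hw1, ?_⟩, ?_⟩
    · intro x hx
      apply hF2
      exact (Submodule.span_le.2 (by rintro _ ⟨s, rfl⟩; exact hw2 s)) hx
    · intro l hl s t
      have h7 := congrFun (hw3 s) ⟨⟨l, hl⟩, t⟩
      have h8 : ⟪TT T k l (f l hl t), TT T k k (w s)⟫_ℝ = 0 := congrArg Prod.fst h7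
      have h9 : ⟪TT T l l (f l hl t), TT T l k (w s)⟫_ℝ = 0 := congrArg Prod.snd h7
      exact ⟨by rw [real_inner_comm]; exact h8, h9⟩)
  have hc : 0 < δ / 2 := by positivity
  choose V S hV hS hSV hVm hS0 using fun k =>
    partial_inverse (Nat.div_le_self (2 ^ k) (2 ^ b)) (TT T k k) (w k) (hw k).1.1 hc (hw k).1.2
  let VV : X →L[ℝ] X := diag V 1 zero_le_one hV
  let SS : X →L[ℝ] X := diag S (1 / (δ / 2)) (by positivity) hS
  have horth : ∀ k l, k ≠ l → ∀ s t, ⟪TT T k k (w k s), TT T k l (w l t)⟫_ℝ = 0 := by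
    intro k l hkl s t
    rcases lt_or_gt_of_ne hkl with hlt | hlt
    · exact ((hw l).2 k hlt t s).2
    · exact ((hw k).2 l hlt s t).1
  have key : SS ∘L T ∘L VV = trunc b := by
    apply clm_ext
    intro l u
    show SS (T (VV (sg l u))) = trunc b (sg l u)
    apply ext_cmp
    intro k
    have h1 : VV (sg l u) = sg l (V l u) := diag_sg _ _ _ _ _ _
    have h2 : trunc b (sg l u) = sg l (trc b l u) := diag_sg _ _ _ _ _ _
    rw [h1, h2]
    show S k (TT T k l (V l u)) = _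
    by_cases hkl : k = l
    · subst hkl
      rw [cmp_sg_self]
      ext s
      rw [hSV, trc_apply]
    · rw [cmp_sg_ne hkl]
      apply hS0
      intro s
      have hmem := hVm l u
      generalize V l u = y₀ at hmem ⊢
      induction hmem using Submodule.span_induction with
      | mem y hy =>
        obtain ⟨t, rfl⟩ := hy
        exact horth k l hkl s t
      | zero => simp
      | add y z _ _ h1 h2 => rw [map_add, inner_add_right, h1, h2, add_zero]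
      | smul c y _ h => rw [map_smul, inner_smul_right, h, mul_zero]
  refine ⟨VV ∘L (up ^ b), (dn ^ b) ∘L SS, ?_⟩
  calc ((dn ^ b) ∘L SS) ∘L T ∘L (VV ∘L (up ^ b)) = (dn ^ b) ∘L (SS ∘L T ∘L VV) ∘L (up ^ b) := rfl
    _ = _ := by rw [key, factor_trunc]

end

end Pool.Agent.H.MP_15e1ec_an
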