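import Pool.Agent.H.MP_15e1ec_an.Cot

set_option autoImplicit false

open scoped ENNReal NNReal Topology
open Finset Filter

namespace Pool.Agent.H.MP_15e1ec_an

noncomputable section

/-- the all-ones matrix on a block -/
def ones (k : ℕ) : Bk k →L[ℝ] Bk k :=
  LinearMap.toContinuousLinearMap
    { toFun := fun x => WithLp.toLp 2 fun _ => ∑ s, x s
      map_add' := by intro x y; ext s; simp [Finset.sum_add_distrib]
      map_smul' := by intro c x; ext s; simp [Finset.mul_sum] }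

lemma ones_apply (k : ℕ) (x : Bk k) (t : Fin (2 ^ k)) : ones k x t = ∑ s, x s := rfl

/-- all-ones on the first `K` blocks and identity elsewhere -/
def badD (K k : ℕ) : Bk k →L[ℝ] Bk k := if k < K then ones k else ContinuousLinearMap.id ℝ _

def badC (K : ℕ) : ℝ := 1 + ∑ k ∈ Finset.range K, ‖ones k‖

lemma badC_nonneg (K : ℕ) : 0 ≤ badC K := by
  unfold badC; positivity

lemma norm_badD (K k : ℕ) : ‖badD K k‖ ≤ badC K := by
  unfold badD badC
  have h0 : 0 ≤ ∑ k ∈ Finset.range K, ‖ones k‖ := by positivity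
  split_ifs with h
  · have := Finset.single_le_sum (f := fun k => ‖ones k‖) (fun i _ => norm_nonneg _)
      (Finset.mem_range.2 h)
    linarith
  · have := ContinuousLinearMap.norm_id_le (𝕜 := ℝ) (E := Bk k)
    linarith

def bad (K : ℕ) : X →L[ℝ] X := diag (badD K) (badC K) (badC_nonneg K) (norm_badD K)

lemma co_bad (K : ℕ) (i : Idx) : co i (bad K (bas i)) = 1 := by
  rw [co_apply]
  unfold bad bas
  rw [cmp_diag, cmp_sg_self]
  unfold badD
  split_ifs with h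
  · rw [ones_apply]
    simp [EuclideanSpace.single]
  · simp

/-- projection on the blocks from `K` on -/
def tailD (K k : ℕ) : Bk k →L[ℝ] Bk k := if k < K then 0 else ContinuousLinearMap.id ℝ _

lemma norm_tailD (K k : ℕ) : ‖tailD K k‖ ≤ 1 := by
  unfold tailD
  split_ifs
  · simp
  · exact ContinuousLinearMap.norm_id_le

def tail (K : ℕ) : X →L[ℝ] X := diag (tailD K) 1 zero_le_one (norm_tailD K)

lemma norm_tail (K : ℕ) (x : X) : ‖tail K x‖ ≤ ‖x‖ := by
  have := (tail K).le_of_opNorm_le (norm_diag_le _ _ _ _) x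
  rwa [one_mul] at this

lemma bad_eq_tail (K : ℕ) (z : X) (h : ∀ l, l < K → ∑ s, cmp l z s = 0) : bad K z = tail K z := by
  apply ext_cmp
  intro l
  unfold bad tail
  rw [cmp_diag, cmp_diag]
  unfold badD tailD
  split_ifs with hl
  · ext s
    rw [ones_apply, h l hl]; rfl
  · rfl

lemma grp_le_of_lt {k v : ℕ} (h : grp k ≤ v) : k < st (v + 1) := by
  have h1 := ((grp_eq_iff k (grp k)).1 rfl).2
  have h2 : st (grp k + 1) ≤ st (v + 1) := by
    unfold st
    have : 2 ^ 2 ^ (grp k + 1) ≤ 2 ^ 2 ^ (v + 1) :=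
      Nat.pow_le_pow_right (by norm_num) (Nat.pow_le_pow_right (by norm_num) (by omega))
    omega
  omega

lemma tail_zero (v : ℕ) (z : X) (w : ℕ) (hw : w ≤ v) : (tail (st (v + 1)) z) w = 0 := by
  apply apply_eq_zero
  intro k hk
  unfold tail
  rw [cmp_diag]
  unfold tailD
  rw [if_pos (grp_le_of_lt (by omega))]
  rfl

lemma exists_vec (K k : ℕ) (hk : K < 2 ^ k) (R : X →L[ℝ] X) :
    ∃ x : Bk k, ‖x‖ = 1 ∧ ∀ l, l < K → ∑ s, cmp l (R (sg k x)) s = 0 := by
  let Ψ : Bk k →ₗ[ℝ] (Fin K → ℝ) :=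
    { toFun := fun x l => ∑ s, cmp l.1 (R (sg k x)) s
      map_add' := by
        intro x y; funext l
        simp [map_add, Finset.sum_add_distrib]
      map_smul' := by
        intro c x; funext l
        simp [map_smul, Finset.mul_sum] }
  have hlt : Module.finrank ℝ (Fin K → ℝ) < Module.finrank ℝ (Bk k) := by
    simp [hk]
  have hker := LinearMap.ker_ne_bot_of_finrank_lt (f := Ψ) hlt
  obtain ⟨x, hx, hx0⟩ := Submodule.exists_mem_ne_zero_of_ne_bot hker
  have hx' : Ψ x = 0 := hx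
  refine ⟨‖x‖⁻¹ • x, ?_, ?_⟩
  · rw [norm_smul, norm_inv, norm_norm, inv_mul_cancel₀ (norm_ne_zero_iff.2 hx0)]
  · intro l hl
    have h1 : Ψ (‖x‖⁻¹ • x) = 0 := by rw [map_smul, hx', smul_zero]
    exact congrFun h1 ⟨l, hl⟩

lemma norm_comb (v : ℕ) (B : Finset ℕ) (hB : B ⊆ Finset.Ico (st v) (st (v + 1)))
    (x : ∀ k, Bk k) (hx : ∀ k ∈ B, ‖x k‖ = 1) (ε : ℕ → ℝ) (hε : ∀ i, |ε i| = 1) :
    ‖∑ i ∈ B, ε i • sg i (x i)‖ = (B.card : ℝ) ^ (1 / rho v) := by
  set w := ∑ i ∈ B, ε i • sg i (x i) with hw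
  have hr := rho_pos v
  have hcmp : ∀ k, cmp k w = if k ∈ B then ε k • x k else 0 := by
    intro k
    rw [hw, cmp_sum]
    have : ∀ i ∈ B, cmp k (ε i • sg i (x i)) = if k = i then ε k • x k else 0 := by
      intro i _
      rw [cmp_smul]
      by_cases hki : k = i
      · subst hki; simp
      · rw [cmp_sg_ne hki, if_neg hki, smul_zero]
    rw [Finset.sum_congr rfl this, Finset.sum_ite_eq]
  have hne : ∀ u, u ≠ v → w u = 0 := by
    intro u hu
    apply apply_eq_zero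
    intro k hk
    rw [hcmp, if_neg]
    intro hkB
    have := (mem_Ico_iff k v).1 (hB hkB)
    exact hu (by rw [← hk, this])
  have hsum : ‖w‖ ^ 2 = ‖w v‖ ^ 2 := by
    rw [norm_sq]
    rw [tsum_eq_single v]
    intro u hu
    rw [hne u hu]; simp
  have h1 : ‖w‖ = ‖w v‖ := (pow_left_inj₀ (norm_nonneg _) (norm_nonneg _) two_ne_zero).1 hsum
  rw [h1, norm_apply_eq]
  congr 1
  have h2 : ∀ k ∈ Finset.Ico (st v) (st (v + 1)), ‖cmp k w‖ ^ rho v = if k ∈ B then (1 : ℝ) else 0 := by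
    intro k _
    rw [hcmp]
    split_ifs with hk
    · rw [norm_smul, hx k hk, Real.norm_eq_abs, hε, one_mul, Real.one_rpow]
    · rw [norm_zero, Real.zero_rpow hr.ne']
  rw [Finset.sum_congr rfl h2, Finset.sum_ite_mem, Finset.inter_eq_right.2 hB]
  simp

/-- the main lower bound -/
lemma lower (v : ℕ) (B : Finset ℕ) (hB : B ⊆ Finset.Ico (st v) (st (v + 1)))
    (hB2 : ∀ k ∈ B, st (v + 1) < 2 ^ k) (R S : X →L[ℝ] X)
    (h : ∀ x, S (bad (st (v + 1)) (R x)) = x) :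
    (B.card : ℝ) ^ (1 / rho (v + 1)) ≤ ‖R‖ * ‖S‖ * (B.card : ℝ) ^ (1 / rho v) := by
  classical
  set K := st (v + 1) with hK
  have hs := rho_pos (v + 1)
  have hex : ∀ k, ∃ x : Bk k, k ∈ B → ‖x‖ = 1 ∧ ∀ l, l < K → ∑ s, cmp l (R (sg k x)) s = 0 := by
    intro k
    by_cases hk : k ∈ B
    · obtain ⟨x, hx⟩ := exists_vec K k (hB2 k hk) R
      exact ⟨x, fun _ => hx⟩
    · exact ⟨0, fun hk' => absurd hk' hk⟩
  choose x hx using hex
  set y : ℕ → X := fun k => tail K (R (sg k (x k))) with hy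
  obtain ⟨ε, hε, hsig⟩ := signs v y (fun i w hw => tail_zero v _ w hw) B
  have hSy : ∀ k ∈ B, S (y k) = sg k (x k) := by
    intro k hk
    rw [hy]
    simp only
    rw [← bad_eq_tail K _ (hx k hk).2, h]
  have hy1 : ∀ k ∈ B, 1 ≤ ‖S‖ * ‖y k‖ := by
    intro k hk
    have h1 := S.le_opNorm (y k)
    rw [hSy k hk, norm_sg, (hx k hk).1] at h1
    exact h1
  have hsum : ∑ i ∈ B, ε i • y i = tail K (R (∑ i ∈ B, ε i • sg i (x i))) := by
    simp only [hy, map_sum, map_smul]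
  have hn := norm_comb v B hB x (fun k hk => (hx k hk).1) ε hε
  have hup : ‖∑ i ∈ B, ε i • y i‖ ≤ ‖R‖ * (B.card : ℝ) ^ (1 / rho v) := by
    rw [hsum, ← hn]
    exact (norm_tail K _).trans (R.le_opNorm _)
  rcases B.eq_empty_or_nonempty with hBe | hBn
  · subst hBe
    simp only [Finset.card_empty, Nat.cast_zero]
    rw [Real.zero_rpow (by positivity), Real.zero_rpow (by have := rho_pos v; positivity)]
    simp
  have hSpos : 0 < ‖S‖ := by
    obtain ⟨k, hk⟩ := hBn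
    have h1 := hy1 k hk
    by_contra hcon
    have h0 : ‖S‖ = 0 := le_antisymm (not_lt.1 hcon) (norm_nonneg _)
    rw [h0, zero_mul] at h1
    linarith
  have hlow : (B.card : ℝ) * (1 / ‖S‖) ^ rho (v + 1) ≤ ∑ i ∈ B, ‖y i‖ ^ rho (v + 1) := by
    rw [← nsmul_eq_mul]
    apply Finset.card_nsmul_le_sum
    intro k hk
    apply Real.rpow_le_rpow (by positivity) _ hs.le
    rw [div_le_iff₀ hSpos, mul_comm]
    exact hy1 k hk
  have h3 : (B.card : ℝ) * (1 / ‖S‖) ^ rho (v + 1) ≤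
      (‖R‖ * (B.card : ℝ) ^ (1 / rho v)) ^ rho (v + 1) :=
    hlow.trans (hsig.trans (Real.rpow_le_rpow (norm_nonneg _) hup hs.le))
  have h4 := Real.rpow_le_rpow (by positivity) h3 (by positivity : 0 ≤ 1 / rho (v + 1))
  rw [← Real.rpow_mul (by positivity), mul_one_div_cancel hs.ne', Real.rpow_one,
    Real.mul_rpow (by positivity) (by positivity), ← Real.rpow_mul (by positivity),
    mul_one_div_cancel hs.ne', Real.rpow_one] at h4
  rw [mul_one_div, div_le_iff₀ hSpos] at h4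
  linarith

lemma sq_le_two_pow : ∀ n : ℕ, 4 ≤ n → n ^ 2 ≤ 2 ^ n := by
  intro n hn
  induction n, hn using Nat.le_induction with
  | base => norm_num
  | succ n hn ih =>
    rw [pow_succ 2 n]
    nlinarith

lemma cube_le (n : ℕ) (hn : 14 ≤ n) : n * ((2 * n + 3) * (2 * n + 5)) ≤ 2 ^ n := by
  induction n, hn using Nat.le_induction with
  | base => norm_num
  | succ n hn ih =>
    rw [pow_succ 2 n]
    have h1 : (n + 1) * (2 * (n + 1) + 5) ≤ 2 * (n * (2 * n + 3)) := by nlinarith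
    calc (n + 1) * ((2 * (n + 1) + 3) * (2 * (n + 1) + 5))
        = ((n + 1) * (2 * (n + 1) + 5)) * (2 * n + 5) := by ring
      _ ≤ (2 * (n * (2 * n + 3))) * (2 * n + 5) := Nat.mul_le_mul_right _ h1
      _ = 2 * (n * ((2 * n + 3) * (2 * n + 5))) := by ring
      _ ≤ 2 * 2 ^ n := Nat.mul_le_mul_left _ ih
      _ = 2 ^ n * 2 := by ring

lemma rho_diff (v : ℕ) : 1 / rho (v + 1) - 1 / rho v = 1 / ((2 * v + 3) * (2 * v + 5)) := by
  unfold rho
  push_cast
  have h1 : (v : ℝ) + 1 ≠ 0 := by positivity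
  have h2 : (v : ℝ) + 1 + 1 ≠ 0 := by positivity
  have h3 : 2 * (v : ℝ) + 3 ≠ 0 := by positivity
  have h4 : 2 * ((v : ℝ) + 1) + 3 ≠ 0 := by positivity
  have h5 : 2 * (v : ℝ) + 5 ≠ 0 := by positivity
  field_simp
  ring

/-- no uniform factorization -/
theorem no_uniform (C : ℝ) : ∃ K : ℕ, ∀ R S : X →L[ℝ] X, (∀ x, S (bad K (R x)) = x) →
    C < ‖R‖ * ‖S‖ := by
  obtain ⟨m, hm⟩ := exists_nat_gt C
  set v := max 14 m with hv
  have hv14 : 14 ≤ v := le_max_left _ _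
  have hvm : m ≤ v := le_max_right _ _
  refine ⟨st (v + 1), fun R S h => ?_⟩
  set q := 2 ^ 2 ^ v with hq
  have hst : st v + 2 = q := st_add_two v
  have hst' : st (v + 1) + 2 = q ^ 2 := by
    rw [st_add_two, hq, ← pow_mul]
    congr 1
  have hq4 : 4 ≤ q := by
    have h1 : 2 ≤ 2 ^ v := by
      calc 2 = 2 ^ 1 := rfl
        _ ≤ 2 ^ v := Nat.pow_le_pow_right (by norm_num) (by omega)
    calc 4 = 2 ^ 2 := by norm_num
      _ ≤ 2 ^ 2 ^ v := Nat.pow_le_pow_right (by norm_num) h1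
  have hq2 : q ^ 2 ≤ 2 ^ q := sq_le_two_pow q hq4
  have hB : Finset.Ico q (st (v + 1)) ⊆ Finset.Ico (st v) (st (v + 1)) := by
    intro k hk
    rw [Finset.mem_Ico] at hk ⊢
    omega
  have hB2 : ∀ k ∈ Finset.Ico q (st (v + 1)), st (v + 1) < 2 ^ k := by
    intro k hk
    rw [Finset.mem_Ico] at hk
    have : 2 ^ q ≤ 2 ^ k := Nat.pow_le_pow_right (by norm_num) hk.1
    omega
  have hcard : q ≤ (Finset.Ico q (st (v + 1))).card := by
    rw [Nat.card_Ico]
    have : 2 * q + 2 ≤ q ^ 2 := by nlinarith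
    omega
  have hlow := lower v _ hB hB2 R S h
  set n := (Finset.Ico q (st (v + 1))).card with hn
  have hnpos : (0 : ℝ) < n := by
    have : 0 < n := by omega
    exact_mod_cast this
  have h1 : (n : ℝ) ^ (1 / rho (v + 1) - 1 / rho v) ≤ ‖R‖ * ‖S‖ := by
    rw [Real.rpow_sub hnpos, div_le_iff₀ (Real.rpow_pos_of_pos hnpos _)]
    exact hlow
  rw [rho_diff] at h1
  have hden : (0 : ℝ) < (2 * v + 3) * (2 * v + 5) := by positivity
  have h2 : (2 : ℝ) ^ (v : ℝ) ≤ (n : ℝ) ^ (1 / ((2 * (v : ℝ) + 3) * (2 * v + 5))) := by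
    have h3 : (q : ℝ) ≤ n := by exact_mod_cast hcard
    have h4 : (q : ℝ) ^ (1 / ((2 * (v : ℝ) + 3) * (2 * v + 5))) ≤
        (n : ℝ) ^ (1 / ((2 * (v : ℝ) + 3) * (2 * v + 5))) :=
      Real.rpow_le_rpow (by positivity) h3 (by positivity)
    refine le_trans ?_ h4
    have h5 : (q : ℝ) = (2 : ℝ) ^ ((2 : ℝ) ^ v) := by
      rw [hq]
      push_cast
      rw [← Real.rpow_natCast]
      push_cast
      rfl
    rw [h5, ← Real.rpow_mul (by norm_num)]
    apply Real.rpow_le_rpow_of_exponent_le (by norm_num)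
    rw [mul_one_div, le_div_iff₀ hden]
    have := cube_le v hv14
    have h6 : ((v * ((2 * v + 3) * (2 * v + 5)) : ℕ) : ℝ) ≤ ((2 ^ v : ℕ) : ℝ) := by exact_mod_cast this
    push_cast at h6
    exact h6
  have h7 : (v : ℝ) ≤ (2 : ℝ) ^ (v : ℝ) := by
    rw [Real.rpow_natCast]
    have := (Nat.lt_two_pow_self (n := v)).le
    exact_mod_cast this
  have h8 : (m : ℝ) ≤ v := by exact_mod_cast hvm
  linarith

end

end Pool.Agent.H.MP_15e1ec_an
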