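import Pool.Agent.H.MP_15e1ec_an.Space

set_option autoImplicit false

open scoped ENNReal NNReal Topology
open Finset Filter

namespace Pool.Agent.H.MP_15e1ec_an

noncomputable section

@[simp] lemma cmp_add (k : ℕ) (x y : X) : cmp k (x + y) = cmp k x + cmp k y := rfl
@[simp] lemma cmp_sub (k : ℕ) (x y : X) : cmp k (x - y) = cmp k x - cmp k y := rfl
@[simp] lemma cmp_smul (k : ℕ) (c : ℝ) (x : X) : cmp k (c • x) = c • cmp k x := rfl
@[simp] lemma cmp_zero (k : ℕ) : cmp k (0 : X) = 0 := rfl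

/-- component as a continuous linear map -/
def cmpL (k : ℕ) : X →L[ℝ] Bk k :=
  LinearMap.mkContinuous
    { toFun := cmp k
      map_add' := fun _ _ => rfl
      map_smul' := fun _ _ => rfl } 1 (fun x => by rw [one_mul]; exact norm_cmp_le k x)

@[simp] lemma cmpL_apply (k : ℕ) (x : X) : cmpL k x = cmp k x := rfl

lemma norm_mk_sq (y : ∀ k, Bk k) (h) : ‖mk y h‖ ^ 2 = ∑' v, ‖asm y v‖ ^ 2 := by
  rw [norm_sq]; rfl

/-- operators from linear maps on families -/
def opOf (L : (∀ k, Bk k) →ₗ[ℝ] (∀ k, Bk k)) (C : ℝ) (hC : 0 ≤ C)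
    (h : ∀ x : X, Summable (fun v => ‖asm (L fun k => cmp k x) v‖ ^ 2) ∧
      ∑' v, ‖asm (L fun k => cmp k x) v‖ ^ 2 ≤ C ^ 2 * ‖x‖ ^ 2) : X →L[ℝ] X :=
  LinearMap.mkContinuous
    { toFun := fun x => mk (L (fun k => cmp k x)) (h x).1
      map_add' := by
        intro x y
        apply ext_cmp
        intro k
        show L (fun k => cmp k (x + y)) k = L (fun k => cmp k x) k + L (fun k => cmp k y) k
        rw [show (fun k => cmp k (x + y)) = (fun k => cmp k x) + fun k => cmp k y from rfl, map_add]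
        rfl
      map_smul' := by
        intro c x
        apply ext_cmp
        intro k
        show L (fun k => cmp k (c • x)) k = c • L (fun k => cmp k x) k
        rw [show (fun k => cmp k (c • x)) = c • (fun k => cmp k x) from rfl, map_smul]
        rfl } C
    (by
      intro x
      refine abs_le_of_sq_le_sq' ?_ (by positivity) |>.2
      simp only [LinearMap.coe_mk, AddHom.coe_mk]
      rw [norm_mk_sq, mul_pow]
      exact (h x).2)

@[simp] lemma cmp_opOf (L) (C : ℝ) (hC) (h) (x : X) (k : ℕ) :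
    cmp k (opOf L C hC h x) = L (fun k => cmp k x) k := rfl

lemma norm_opOf_le (L) (C : ℝ) (hC) (h) : ‖opOf L C hC h‖ ≤ C :=
  LinearMap.mkContinuous_norm_le _ hC _

lemma norm_asm_mono {y z : ∀ k, Bk k} {v : ℕ} (h : ∀ k, grp k = v → ‖y k‖ ≤ ‖z k‖) :
    ‖asm y v‖ ≤ ‖asm z v‖ := by
  rw [norm_asm, norm_asm]
  have := rho_pos v
  apply Real.rpow_le_rpow (by positivity) _ (by positivity)
  apply Finset.sum_le_sum
  intro k hk
  exact Real.rpow_le_rpow (norm_nonneg _) (h k ((mem_Ico_iff k v).1 hk)) this.le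

lemma norm_asm_smul (c : ℝ) (y : ∀ k, Bk k) (v : ℕ) : ‖asm (fun k => c • y k) v‖ = |c| * ‖asm y v‖ := by
  have : asm (fun k => c • y k) v = c • asm y v := rfl
  rw [this, norm_smul, Real.norm_eq_abs]

/-- domination by a multiple -/
lemma dom {y : ∀ k, Bk k} {x : X} {c : ℝ} (hc : 0 ≤ c) (h : ∀ k, ‖y k‖ ≤ c * ‖cmp k x‖) (v : ℕ) :
    ‖asm y v‖ ≤ c * ‖x v‖ := by
  rw [← asm_cmp x v]
  have : c * ‖asm (fun k => cmp k x) v‖ = ‖asm (fun k => c • cmp k x) v‖ := by
    rw [norm_asm_smul, abs_of_nonneg hc]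
  rw [this]
  apply norm_asm_mono
  intro k _
  rw [norm_smul, Real.norm_eq_abs, abs_of_nonneg hc]
  exact h k

lemma bound_of_dom {y : ∀ k, Bk k} {x : X} {c : ℝ} (hc : 0 ≤ c) (h : ∀ v, ‖asm y v‖ ≤ c * ‖x v‖) :
    Summable (fun v => ‖asm y v‖ ^ 2) ∧ ∑' v, ‖asm y v‖ ^ 2 ≤ c ^ 2 * ‖x‖ ^ 2 := by
  have h1 : ∀ v, ‖asm y v‖ ^ 2 ≤ c ^ 2 * ‖x v‖ ^ 2 := by
    intro v
    rw [← mul_pow]
    exact pow_le_pow_left₀ (norm_nonneg _) (h v) 2
  have h2 : Summable fun v => c ^ 2 * ‖x v‖ ^ 2 := (summable_sq x).mul_left _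
  have h3 : Summable (fun v => ‖asm y v‖ ^ 2) :=
    Summable.of_nonneg_of_le (fun v => by positivity) h1 h2
  refine ⟨h3, ?_⟩
  rw [norm_sq x, ← tsum_mul_left]
  exact Summable.tsum_le_tsum h1 h3 h2

/-- diagonal operators -/
def diag (D : ∀ k, Bk k →L[ℝ] Bk k) (c : ℝ) (hc : 0 ≤ c) (h : ∀ k, ‖D k‖ ≤ c) : X →L[ℝ] X :=
  opOf (LinearMap.pi fun k => (D k).toLinearMap ∘ₗ LinearMap.proj k) c hc (fun x => by
    apply bound_of_dom hc
    apply dom hc
    intro k
    simp only [LinearMap.pi_apply, LinearMap.coe_comp, Function.comp_apply, LinearMap.proj_apply,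
      ContinuousLinearMap.coe_coe]
    exact ContinuousLinearMap.le_of_opNorm_le _ (h k) _)

@[simp] lemma cmp_diag (D) (c : ℝ) (hc) (h) (x : X) (k : ℕ) :
    cmp k (diag D c hc h x) = D k (cmp k x) := rfl

lemma norm_diag_le (D) (c : ℝ) (hc) (h) : ‖diag D c hc h‖ ≤ c := norm_opOf_le _ _ _ _

/-- single block vectors -/
lemma asm_single_ne (k : ℕ) (h : Bk k) {v : ℕ} (hv : grp k ≠ v) : asm (Pi.single k h) v = 0 := by
  ext1 j
  obtain ⟨j, rfl⟩ := j
  have : j ≠ k := by rintro rfl; exact hv rfl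
  simp [asm, Pi.single_eq_of_ne this]

lemma norm_asm_single (k : ℕ) (h : Bk k) : ‖asm (Pi.single k h) (grp k)‖ = ‖h‖ := by
  rw [norm_asm, Finset.sum_eq_single k]
  · have e : (Pi.single k h : ∀ k, Bk k) k = h := Pi.single_eq_same k h
    rw [e, ← Real.rpow_mul (norm_nonneg _), mul_one_div_cancel (rho_pos _).ne', Real.rpow_one]
  · intro j _ hj
    have e : (Pi.single k h : ∀ k, Bk k) j = 0 := Pi.single_eq_of_ne hj h
    rw [e, norm_zero, Real.zero_rpow (rho_pos _).ne']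
  · intro hk
    exact absurd ((mem_Ico_iff k (grp k)).2 rfl) hk

lemma hasSum_sq_single (k : ℕ) (h : Bk k) : HasSum (fun v => ‖asm (Pi.single k h) v‖ ^ 2) (‖h‖ ^ 2) := by
  rw [← norm_asm_single k h]
  apply _root_.hasSum_single (grp k)
  intro v hv
  rw [asm_single_ne k h hv.symm]; simp

/-- inclusion of a block -/
def sg (k : ℕ) : Bk k →L[ℝ] X :=
  LinearMap.mkContinuous
    { toFun := fun h => mk (Pi.single k h) (hasSum_sq_single k h).summable
      map_add' := by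
        intro x y
        apply ext_cmp
        intro j
        simp only [cmp_mk, cmp_add]
        rw [Pi.single_add]; rfl
      map_smul' := by
        intro c x
        apply ext_cmp
        intro j
        simp only [cmp_mk, cmp_smul, RingHom.id_apply]
        rw [Pi.single_smul]; rfl } 1
    (by
      intro x
      refine abs_le_of_sq_le_sq' ?_ (by positivity) |>.2
      simp only [LinearMap.coe_mk, AddHom.coe_mk]
      rw [norm_mk_sq, (hasSum_sq_single k x).tsum_eq, one_mul])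

lemma cmp_sg (j k : ℕ) (h : Bk k) : cmp j (sg k h) = (Pi.single k h : ∀ k, Bk k) j := rfl

@[simp] lemma cmp_sg_self (k : ℕ) (h : Bk k) : cmp k (sg k h) = h := by
  rw [cmp_sg, Pi.single_eq_same]

lemma cmp_sg_ne {j k : ℕ} (hjk : j ≠ k) (h : Bk k) : cmp j (sg k h) = 0 := by
  rw [cmp_sg, Pi.single_eq_of_ne hjk]

lemma norm_sg (k : ℕ) (h : Bk k) : ‖sg k h‖ = ‖h‖ := by
  have : ‖sg k h‖ ^ 2 = ‖h‖ ^ 2 := by
    show ‖mk (Pi.single k h) (hasSum_sq_single k h).summable‖ ^ 2 = _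
    rw [norm_mk_sq, (hasSum_sq_single k h).tsum_eq]
  exact (pow_left_inj₀ (norm_nonneg _) (norm_nonneg _) two_ne_zero).1 this

lemma norm_sgL (k : ℕ) : ‖sg k‖ ≤ 1 := LinearMap.mkContinuous_norm_le _ zero_le_one _
lemma norm_cmpL (k : ℕ) : ‖cmpL k‖ ≤ 1 := LinearMap.mkContinuous_norm_le _ zero_le_one _

end

end Pool.Agent.H.MP_15e1ec_an
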