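import Pool.Agent.H.MP_15e1ec_an.Bas

set_option autoImplicit false

open scoped ENNReal NNReal Topology
open Finset Filter

namespace Pool.Agent.H.MP_15e1ec_an

noncomputable section

lemma bound_two {y : ∀ k, Bk k} {x : X} (t : ℕ → ℝ) (ht0 : ∀ v, 0 ≤ t v)
    (hts : Summable fun v => t v ^ 2) (hle : ∑' v, t v ^ 2 ≤ ‖x‖ ^ 2)
    (h : ∀ v, ‖asm y v‖ ≤ ‖x v‖ + t v) :
    Summable (fun v => ‖asm y v‖ ^ 2) ∧ ∑' v, ‖asm y v‖ ^ 2 ≤ (2 : ℝ) ^ 2 * ‖x‖ ^ 2 := by
  have h1 : ∀ v, ‖asm y v‖ ^ 2 ≤ 2 * ‖x v‖ ^ 2 + 2 * t v ^ 2 := by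
    intro v
    have h0 := norm_nonneg (asm y v)
    have := pow_le_pow_left₀ h0 (h v) 2
    nlinarith [sq_nonneg (‖x v‖ - t v)]
  have h2 : Summable fun v => 2 * ‖x v‖ ^ 2 + 2 * t v ^ 2 :=
    ((summable_sq x).mul_left _).add (hts.mul_left _)
  have h3 : Summable (fun v => ‖asm y v‖ ^ 2) :=
    Summable.of_nonneg_of_le (fun v => by positivity) h1 h2
  refine ⟨h3, (Summable.tsum_le_tsum h1 h3 h2).trans ?_⟩
  rw [Summable.tsum_add ((summable_sq x).mul_left _) (hts.mul_left _), tsum_mul_left,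
    tsum_mul_left, ← norm_sq x]
  nlinarith

lemma lt_two {k : ℕ} (s : Fin (2 ^ k)) : s.1 < 2 ^ (k + 1) :=
  s.2.trans (Nat.pow_lt_pow_right (by norm_num) (Nat.lt_succ_self k))

/-- inclusion of block `k` in block `k+1` -/
def inc (k : ℕ) : Bk k →ₗ[ℝ] Bk (k + 1) where
  toFun x := WithLp.toLp 2 fun s => if h : s.1 < 2 ^ k then x ⟨s.1, h⟩ else 0
  map_add' x y := by
    ext s
    by_cases h : s.1 < 2 ^ k <;> simp [h]
  map_smul' c x := by
    ext s
    by_cases h : s.1 < 2 ^ k <;> simp [h]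

/-- restriction of block `k+1` to block `k` -/
def res (k : ℕ) : Bk (k + 1) →ₗ[ℝ] Bk k where
  toFun x := WithLp.toLp 2 fun s => x ⟨s.1, lt_two s⟩
  map_add' x y := by ext s; simp
  map_smul' c x := by ext s; simp

lemma inc_apply (k : ℕ) (x : Bk k) (s : Fin (2 ^ (k + 1))) :
    inc k x s = if h : s.1 < 2 ^ k then x ⟨s.1, h⟩ else 0 := rfl

lemma res_apply (k : ℕ) (x : Bk (k + 1)) (s : Fin (2 ^ k)) :
    res k x s = x ⟨s.1, lt_two s⟩ := rfl

lemma res_inc (k : ℕ) (x : Bk k) : res k (inc k x) = x := by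
  ext s
  rw [res_apply, inc_apply]
  simp [s.2]

lemma sum_fin_eq {m : ℕ} (f : Fin m → ℝ) :
    ∑ s, f s = ∑ s ∈ Finset.range m, if h : s < m then f ⟨s, h⟩ else 0 := by
  rw [← Fin.sum_univ_eq_sum_range (fun s => if h : s < m then f ⟨s, h⟩ else 0) m]
  apply Finset.sum_congr rfl
  intro s _
  simp

lemma norm_inc (k : ℕ) (x : Bk k) : ‖inc k x‖ ≤ ‖x‖ := by
  rw [EuclideanSpace.norm_eq, EuclideanSpace.norm_eq]
  apply Real.sqrt_le_sqrt
  rw [sum_fin_eq, sum_fin_eq]
  have h2 : 2 ^ k ≤ 2 ^ (k + 1) := by rw [pow_succ]; omega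
  have : Finset.range (2 ^ (k + 1)) = Finset.range (2 ^ k) ∪ Finset.Ico (2 ^ k) (2 ^ (k + 1)) := by
    ext a; simp; omega
  rw [this, Finset.sum_union]
  · have h0 : ∑ s ∈ Finset.Ico (2 ^ k) (2 ^ (k + 1)),
        (if h : s < 2 ^ (k + 1) then ‖(inc k x) ⟨s, h⟩‖ ^ 2 else 0) = 0 := by
      apply Finset.sum_eq_zero
      intro s hs
      rw [Finset.mem_Ico] at hs
      rw [dif_pos hs.2, inc_apply, dif_neg (by simpa using hs.1)]
      simp
    rw [h0, add_zero]
    apply le_of_eq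
    apply Finset.sum_congr rfl
    intro s hs
    rw [Finset.mem_range] at hs
    rw [dif_pos (by omega), dif_pos hs, inc_apply, dif_pos (by simpa using hs)]
  · rw [Finset.disjoint_left]
    intro a ha hb
    simp at ha hb
    omega

lemma norm_res (k : ℕ) (x : Bk (k + 1)) : ‖res k x‖ ≤ ‖x‖ := by
  rw [EuclideanSpace.norm_eq, EuclideanSpace.norm_eq]
  apply Real.sqrt_le_sqrt
  rw [sum_fin_eq, sum_fin_eq]
  have h2 : 2 ^ k ≤ 2 ^ (k + 1) := by rw [pow_succ]; omega
  calc _ = ∑ s ∈ Finset.range (2 ^ k), (if h : s < 2 ^ (k + 1) then ‖x ⟨s, h⟩‖ ^ 2 else 0) := by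
        apply Finset.sum_congr rfl
        intro s hs
        rw [Finset.mem_range] at hs
        rw [dif_pos hs, dif_pos (by omega), res_apply]
    _ ≤ _ := by
        apply Finset.sum_le_sum_of_subset_of_nonneg
        · intro a ha; simp at ha ⊢; omega
        · intro s _ _
          split_ifs <;> positivity

/-- the shift on families -/
def upL : (∀ k, Bk k) →ₗ[ℝ] (∀ k, Bk k) where
  toFun x k := match k with
    | 0 => 0
    | k + 1 => inc k (x k)
  map_add' x y := by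
    funext k
    cases k with
    | zero => simp
    | succ k => simp
  map_smul' c x := by
    funext k
    cases k with
    | zero => simp
    | succ k => simp

/-- the backward shift on families -/
def dnL : (∀ k, Bk k) →ₗ[ℝ] (∀ k, Bk k) where
  toFun x k := res k (x (k + 1))
  map_add' x y := by funext k; simp
  map_smul' c x := by funext k; simp

lemma rpow_root {r P Q : ℝ} (hr : 1 ≤ r) (hP : 0 ≤ P) (hQ : 0 ≤ Q) :
    (P + Q ^ r) ^ (1 / r) ≤ P ^ (1 / r) + Q := by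
  have h0 : 0 < r := by linarith
  calc (P + Q ^ r) ^ (1 / r) ≤ P ^ (1 / r) + (Q ^ r) ^ (1 / r) := by
        apply Real.rpow_add_le_add_rpow hP (by positivity) (by positivity)
        rw [div_le_one h0]; exact hr
    _ = P ^ (1 / r) + Q := by
        rw [← Real.rpow_mul hQ, mul_one_div_cancel h0.ne', Real.rpow_one]

lemma st_mono {v w : ℕ} (h : v ≤ w) : st v ≤ st w := by
  unfold st
  have : 2 ^ 2 ^ v ≤ 2 ^ 2 ^ w := Nat.pow_le_pow_right (by norm_num) (Nat.pow_le_pow_right (by norm_num) h)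
  omega

lemma st_lt_succ (v : ℕ) : st v < st (v + 1) := by
  have h1 := st_add_two v
  have h2 := st_add_two (v + 1)
  have : 2 ^ 2 ^ v < 2 ^ 2 ^ (v + 1) :=
    Nat.pow_lt_pow_right (by norm_num) (Nat.pow_lt_pow_right (by norm_num) (Nat.lt_succ_self v))
  omega

lemma st_zero : st 0 = 0 := rfl

lemma up_bound (x : X) (v : ℕ) :
    ‖asm (upL fun k => cmp k x) v‖ ≤ ‖x v‖ + (match v with | 0 => 0 | v + 1 => ‖x v‖) := by
  have hr := rho_pos v
  have hr1 : 1 ≤ rho v := by linarith [two_lt_rho v]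
  rw [norm_asm, norm_apply_eq]
  set a := st v
  set b := st (v + 1)
  have hab : a < b := st_lt_succ v
  have hstep : ∀ k, ‖(upL fun k => cmp k x) (k + 1)‖ ^ rho v ≤ ‖cmp k x‖ ^ rho v := by
    intro k
    exact Real.rpow_le_rpow (norm_nonneg _) (norm_inc k _) hr.le
  have hzero : ‖(upL fun k => cmp k x) 0‖ ^ rho v = 0 := by
    show ‖(0 : Bk 0)‖ ^ rho v = 0
    rw [norm_zero, Real.zero_rpow hr.ne']
  cases v with
  | zero =>
    simp only [add_zero]
    apply Real.rpow_le_rpow (by positivity) _ (by positivity)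
    have ha : a = 0 := rfl
    rw [ha, ← Finset.range_eq_Ico]
    obtain ⟨c, hc⟩ : ∃ c, b = c + 1 := ⟨b - 1, by omega⟩
    rw [hc, Finset.sum_range_succ', hzero, add_zero, Finset.sum_range_succ]
    have : 0 ≤ ‖cmp c x‖ ^ rho 0 := by positivity
    linarith [Finset.sum_le_sum (s := Finset.range c) fun k _ => hstep k]
  | succ v =>
    simp only
    have ha : 1 ≤ a := by
      have := st_lt_succ v
      have h0 := st_mono (Nat.zero_le v)
      omega
    obtain ⟨a', ha'⟩ : ∃ a', a = a' + 1 := ⟨a - 1, by omega⟩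
    obtain ⟨b', hb'⟩ : ∃ b', b = b' + 1 := ⟨b - 1, by omega⟩
    have hg : grp a' = v := by
      rw [grp_eq_iff]
      have h1 := st_lt_succ v
      have h2 : a = st (v + 1) := rfl
      omega
    have hlast : ‖cmp a' x‖ ≤ ‖x v‖ := by
      subst hg
      exact PiLp.norm_apply_le (x (grp a')) ⟨a', rfl⟩
    have h1 : ∑ k ∈ Finset.Ico a b, ‖(upL fun k => cmp k x) k‖ ^ rho (v + 1)
        ≤ ∑ k ∈ Finset.Ico a b, ‖cmp k x‖ ^ rho (v + 1) + ‖cmp a' x‖ ^ rho (v + 1) := by
      rw [ha', hb', ← Finset.sum_Ico_add' (fun k => ‖(upL fun k => cmp k x) k‖ ^ rho (v + 1)) a' b' 1]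
      have h3 : ∑ k ∈ Finset.Ico a' b', ‖(upL fun k => cmp k x) (k + 1)‖ ^ rho (v + 1)
          ≤ ∑ k ∈ Finset.Ico a' b', ‖cmp k x‖ ^ rho (v + 1) := Finset.sum_le_sum fun k _ => hstep k
      have h4 : ∑ k ∈ Finset.Ico a' b', ‖cmp k x‖ ^ rho (v + 1)
          = ‖cmp a' x‖ ^ rho (v + 1) + ∑ k ∈ Finset.Ico (a' + 1) b', ‖cmp k x‖ ^ rho (v + 1) := by
        rw [Finset.sum_eq_sum_Ico_succ_bot (by omega)]
      have h5 : ∑ k ∈ Finset.Ico (a' + 1) b', ‖cmp k x‖ ^ rho (v + 1)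
          ≤ ∑ k ∈ Finset.Ico (a' + 1) (b' + 1), ‖cmp k x‖ ^ rho (v + 1) := by
        apply Finset.sum_le_sum_of_subset_of_nonneg
        · intro k hk; simp at hk ⊢; omega
        · intro k _ _; positivity
      linarith
    have e1 := Real.rpow_le_rpow (Finset.sum_nonneg fun k _ => Real.rpow_nonneg (norm_nonneg _) _) h1
      (by positivity : 0 ≤ 1 / rho (v + 1))
    have e2 := rpow_root (P := ∑ k ∈ Finset.Ico a b, ‖cmp k x‖ ^ rho (v + 1)) (Q := ‖cmp a' x‖) hr1
      (Finset.sum_nonneg fun k _ => Real.rpow_nonneg (norm_nonneg _) _) (norm_nonneg _)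
    exact e1.trans (e2.trans (add_le_add le_rfl hlast))

lemma dn_bound (x : X) (v : ℕ) :
    ‖asm (dnL fun k => cmp k x) v‖ ≤ ‖x v‖ + ‖x (v + 1)‖ := by
  have hr := rho_pos v
  have hr1 : 1 ≤ rho v := by linarith [two_lt_rho v]
  rw [norm_asm, norm_apply_eq]
  set a := st v
  set b := st (v + 1) with hb
  have hab : a < b := st_lt_succ v
  have hstep : ∀ k, ‖(dnL fun k => cmp k x) k‖ ^ rho v ≤ ‖cmp (k + 1) x‖ ^ rho v := by
    intro k
    exact Real.rpow_le_rpow (norm_nonneg _) (norm_res k _) hr.le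
  have hg : grp b = v + 1 := by
    rw [grp_eq_iff]
    exact ⟨le_rfl, st_lt_succ _⟩
  have hlast : ‖cmp b x‖ ≤ ‖x (v + 1)‖ := by
    rw [← hg]
    exact PiLp.norm_apply_le (x (grp b)) ⟨b, rfl⟩
  have h1 : ∑ k ∈ Finset.Ico a b, ‖(dnL fun k => cmp k x) k‖ ^ rho v
      ≤ ∑ k ∈ Finset.Ico a b, ‖cmp k x‖ ^ rho v + ‖cmp b x‖ ^ rho v := by
    have h3 : ∑ k ∈ Finset.Ico a b, ‖(dnL fun k => cmp k x) k‖ ^ rho v
        ≤ ∑ k ∈ Finset.Ico a b, ‖cmp (k + 1) x‖ ^ rho v := Finset.sum_le_sum fun k _ => hstep k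
    rw [Finset.sum_Ico_add' (fun k => ‖cmp k x‖ ^ rho v) a b 1] at h3
    have h4 : ∑ k ∈ Finset.Ico (a + 1) (b + 1), ‖cmp k x‖ ^ rho v
        = ∑ k ∈ Finset.Ico (a + 1) b, ‖cmp k x‖ ^ rho v + ‖cmp b x‖ ^ rho v := by
      rw [Finset.sum_Ico_succ_top (by omega)]
    have h5 : ∑ k ∈ Finset.Ico (a + 1) b, ‖cmp k x‖ ^ rho v
        ≤ ∑ k ∈ Finset.Ico a b, ‖cmp k x‖ ^ rho v := by
      apply Finset.sum_le_sum_of_subset_of_nonneg
      · intro k hk; simp at hk ⊢; omega
      · intro k _ _; positivity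
    linarith
  have e1 := Real.rpow_le_rpow (Finset.sum_nonneg fun k _ => Real.rpow_nonneg (norm_nonneg _) _) h1
    (by positivity : 0 ≤ 1 / rho v)
  have e2 := rpow_root (P := ∑ k ∈ Finset.Ico a b, ‖cmp k x‖ ^ rho v) (Q := ‖cmp b x‖) hr1
    (Finset.sum_nonneg fun k _ => Real.rpow_nonneg (norm_nonneg _) _) (norm_nonneg _)
  exact e1.trans (e2.trans (add_le_add le_rfl hlast))

/-- the shift -/
def up : X →L[ℝ] X :=
  opOf upL 2 (by norm_num) (fun x => by
    apply bound_two (fun v => match v with | 0 => 0 | v + 1 => ‖x v‖) _ _ _ (up_bound x)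
    · intro v
      cases v with
      | zero => exact le_rfl
      | succ v => exact norm_nonneg _
    · rw [← summable_nat_add_iff 1]
      exact summable_sq x
    · rw [Summable.tsum_eq_zero_add]
      · simp only
        rw [norm_sq x]; simp
      · rw [← summable_nat_add_iff 1]
        exact summable_sq x)

/-- the backward shift -/
def dn : X →L[ℝ] X :=
  opOf dnL 2 (by norm_num) (fun x => by
    apply bound_two (fun v => ‖x (v + 1)‖) (fun v => norm_nonneg _) _ _ (dn_bound x)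
    · exact (summable_nat_add_iff 1).2 (summable_sq x)
    · rw [norm_sq x, (summable_sq x).tsum_eq_zero_add]
      have : 0 ≤ ‖x 0‖ ^ 2 := by positivity
      linarith)

lemma cmp_up_zero (x : X) : cmp 0 (up x) = 0 := rfl
lemma cmp_up_succ (x : X) (k : ℕ) : cmp (k + 1) (up x) = inc k (cmp k x) := rfl
lemma cmp_dn (x : X) (k : ℕ) : cmp k (dn x) = res k (cmp (k + 1) x) := rfl

lemma dn_up (x : X) : dn (up x) = x := by
  apply ext_cmp
  intro k
  rw [cmp_dn, cmp_up_succ, res_inc]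

lemma dn_up_pow (b : ℕ) (x : X) : (dn ^ b) ((up ^ b) x) = x := by
  induction b with
  | zero => simp
  | succ b ih =>
    rw [pow_succ, pow_succ']
    show (dn ^ b) (dn (up ((up ^ b) x))) = x
    rw [dn_up, ih]

lemma up_pow_supp (b : ℕ) (x : X) (k : ℕ) (s : Fin (2 ^ k)) (h : ¬ s.1 < 2 ^ k / 2 ^ b) :
    cmp k ((up ^ b) x) s = 0 := by
  induction b generalizing k with
  | zero => exact absurd (by simp) h
  | succ b ih =>
    rw [pow_succ']
    show cmp k (up ((up ^ b) x)) s = 0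
    cases k with
    | zero => rw [cmp_up_zero]; rfl
    | succ k =>
      rw [cmp_up_succ, inc_apply]
      split_ifs with hs
      · apply ih
        intro hlt
        apply h
        have e : 2 ^ (k + 1) / 2 ^ (b + 1) = 2 ^ k / 2 ^ b := by
          rw [pow_succ, pow_succ, Nat.mul_div_mul_right _ _ (by norm_num)]
        exact lt_of_lt_of_eq hlt e.symm
      · rfl

/-- coordinate truncation on a block -/
def trc (b k : ℕ) : Bk k →L[ℝ] Bk k :=
  LinearMap.mkContinuous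
    { toFun := fun x => WithLp.toLp 2 fun s => if s.1 < 2 ^ k / 2 ^ b then x s else 0
      map_add' := by intro x y; ext s; by_cases h : s.1 < 2 ^ k / 2 ^ b <;> simp [h]
      map_smul' := by intro c x; ext s; by_cases h : s.1 < 2 ^ k / 2 ^ b <;> simp [h] } 1
    (by
      intro x
      rw [one_mul, EuclideanSpace.norm_eq, EuclideanSpace.norm_eq]
      apply Real.sqrt_le_sqrt
      apply Finset.sum_le_sum
      intro s _
      by_cases h : s.1 < 2 ^ k / 2 ^ b
      · simp [h]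
      · simp [h, sq_nonneg])

lemma trc_apply (b k : ℕ) (x : Bk k) (s : Fin (2 ^ k)) :
    trc b k x s = if s.1 < 2 ^ k / 2 ^ b then x s else 0 := rfl

lemma norm_trc (b k : ℕ) : ‖trc b k‖ ≤ 1 := LinearMap.mkContinuous_norm_le _ zero_le_one _

/-- truncation operator on `X` -/
def trunc (b : ℕ) : X →L[ℝ] X := diag (trc b) 1 zero_le_one (norm_trc b)

lemma trunc_up_pow (b : ℕ) (x : X) : trunc b ((up ^ b) x) = (up ^ b) x := by
  apply ext_cmp
  intro k
  unfold trunc
  rw [cmp_diag]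
  ext s
  rw [trc_apply]
  split_ifs with h
  · rfl
  · rw [up_pow_supp b x k s h]

/-- the identity factors through the truncation operators -/
lemma factor_trunc (b : ℕ) : (dn ^ b) ∘L (trunc b) ∘L (up ^ b) = ContinuousLinearMap.id ℝ X := by
  ext1 x
  show (dn ^ b) (trunc b ((up ^ b) x)) = x
  rw [trunc_up_pow, dn_up_pow]

end

end Pool.Agent.H.MP_15e1ec_an
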