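import Mathlib

set_option autoImplicit false

open scoped ENNReal NNReal Topology
open Finset Filter

namespace Pool.Agent.H.MP_15e1ec_an

noncomputable section

/-- group number of block `k` -/
def grp (k : ℕ) : ℕ := Nat.log 2 (Nat.log 2 (k + 2))

/-- first index of group `v` -/
def st (v : ℕ) : ℕ := 2 ^ 2 ^ v - 2

lemma two_le_pp (v : ℕ) : 2 ≤ 2 ^ 2 ^ v := by
  calc 2 = 2 ^ 1 := by norm_num
    _ ≤ 2 ^ 2 ^ v := Nat.pow_le_pow_right (by norm_num) (Nat.one_le_two_pow)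

lemma st_add_two (v : ℕ) : st v + 2 = 2 ^ 2 ^ v := by
  have := two_le_pp v
  unfold st; omega

lemma grp_eq_iff (k v : ℕ) : grp k = v ↔ st v ≤ k ∧ k < st (v + 1) := by
  have h1 := st_add_two v
  have h2 := st_add_two (v + 1)
  have hlog : Nat.log 2 (k + 2) ≠ 0 := by
    have : 1 ≤ Nat.log 2 (k + 2) := by
      apply Nat.le_log_of_pow_le (by norm_num)
      omega
    omega
  unfold grp
  rw [Nat.log_eq_iff (Or.inr ⟨by norm_num, hlog⟩)]
  rw [Nat.le_log_iff_pow_le (by norm_num) (by omega), Nat.log_lt_iff_lt_pow (by norm_num) (by omega)]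
  omega

lemma grp_zero : grp 0 = 0 := by
  rw [grp_eq_iff]; constructor <;> simp [st]

lemma mem_Ico_iff (k v : ℕ) : k ∈ Finset.Ico (st v) (st (v + 1)) ↔ grp k = v := by
  rw [grp_eq_iff, Finset.mem_Ico]

instance instFin (v : ℕ) : Fintype {k : ℕ // grp k = v} :=
  Fintype.subtype (Finset.Ico (st v) (st (v + 1))) (fun k => mem_Ico_iff k v)

lemma sum_group {M : Type*} [AddCommMonoid M] (v : ℕ) (f : ℕ → M) :
    ∑ k : {k : ℕ // grp k = v}, f k.1 = ∑ k ∈ Finset.Ico (st v) (st (v + 1)), f k :=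
  (Finset.sum_subtype _ (fun k => mem_Ico_iff k v) f).symm

/-- exponents -/
def rho (v : ℕ) : ℝ := (2 * v + 3) / (v + 1)

lemma two_lt_rho (v : ℕ) : 2 < rho v := by
  unfold rho
  rw [lt_div_iff₀ (by positivity)]
  linarith

lemma rho_pos (v : ℕ) : 0 < rho v := lt_trans (by norm_num) (two_lt_rho v)

lemma rho_anti {v w : ℕ} (h : v ≤ w) : rho w ≤ rho v := by
  unfold rho
  rw [div_le_div_iff₀ (by positivity) (by positivity)]
  have : (v : ℝ) ≤ w := by exact_mod_cast h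
  nlinarith

instance instFact (v : ℕ) : Fact (1 ≤ ENNReal.ofReal (rho v)) :=
  ⟨by
    rw [← ENNReal.ofReal_one]
    exact ENNReal.ofReal_le_ofReal (by linarith [two_lt_rho v])⟩

lemma toReal_rho (v : ℕ) : (ENNReal.ofReal (rho v)).toReal = rho v :=
  ENNReal.toReal_ofReal (rho_pos v).le

/-- the Hilbert blocks -/
abbrev Bk (k : ℕ) : Type := EuclideanSpace ℝ (Fin (2 ^ k))

/-- the groups -/
abbrev W (v : ℕ) : Type := PiLp (ENNReal.ofReal (rho v)) (fun k : {k : ℕ // grp k = v} => Bk k.1)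

/-- the space -/
abbrev X : Type := lp W 2

example : CompleteSpace X := inferInstance
example : NormedSpace ℝ X := inferInstance

/-- block components -/
def cmp (k : ℕ) (x : X) : Bk k := (x (grp k)) ⟨k, rfl⟩

/-- assemble a group vector -/
def asm (y : ∀ k, Bk k) (v : ℕ) : W v := WithLp.toLp _ (fun k => y k.1)

lemma norm_asm (y : ∀ k, Bk k) (v : ℕ) :
    ‖asm y v‖ = (∑ k ∈ Finset.Ico (st v) (st (v + 1)), ‖y k‖ ^ rho v) ^ (1 / rho v) := by
  rw [PiLp.norm_eq_sum (by rw [toReal_rho]; exact rho_pos v), toReal_rho]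
  rw [← sum_group v (fun k => ‖y k‖ ^ rho v)]
  rfl

lemma asm_cmp (x : X) (v : ℕ) : asm (fun k => cmp k x) v = x v := by
  ext1 k
  obtain ⟨k, rfl⟩ := k
  rfl

lemma norm_apply_eq (x : X) (v : ℕ) :
    ‖x v‖ = (∑ k ∈ Finset.Ico (st v) (st (v + 1)), ‖cmp k x‖ ^ rho v) ^ (1 / rho v) := by
  rw [← asm_cmp x v, norm_asm]

lemma ext_cmp {x y : X} (h : ∀ k, cmp k x = cmp k y) : x = y := by
  apply lp.ext
  funext v
  rw [← asm_cmp x v, ← asm_cmp y v]
  unfold asm
  simp only [h]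

lemma norm_sq (x : X) : ‖x‖ ^ 2 = ∑' v, ‖x v‖ ^ 2 := by
  have := lp.norm_rpow_eq_tsum (E := W) (p := 2) (by norm_num) x
  simpa using this

lemma summable_sq (x : X) : Summable fun v => ‖x v‖ ^ 2 := by
  have := (lp.memℓp x).summable (by norm_num)
  simpa using this

lemma norm_cmp_le (k : ℕ) (x : X) : ‖cmp k x‖ ≤ ‖x‖ := by
  calc ‖cmp k x‖ ≤ ‖x (grp k)‖ := PiLp.norm_apply_le _ _
    _ ≤ ‖x‖ := lp.norm_apply_le_norm (by norm_num) x _

/-- construct an element of `X` -/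
def mk (y : ∀ k, Bk k) (h : Summable fun v => ‖asm y v‖ ^ 2) : X :=
  ⟨asm y, memℓp_gen (by simpa using h)⟩

@[simp] lemma cmp_mk (y : ∀ k, Bk k) (h) (k : ℕ) : cmp k (mk y h) = y k := rfl

lemma mk_apply (y : ∀ k, Bk k) (h) (v : ℕ) : (mk y h) v = asm y v := rfl

end

end Pool.Agent.H.MP_15e1ec_an
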